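import Pool.Agent.Lib.MP_1e8d1a_an.LC.Defs
import Pool.Agent.Lib.MP_1e8d1a_an.IR.Defs

/-! row lc-C1b -/

open scoped ContDiff Manifold Topology

namespace Pool.Agent.SC

/-- Existence of nearby free points.
PROOF.  Let `O'` be an open set with `w ∈ O' ⊆ O` and `g^[q] z = z` on `O'`.  Every `z ∈ O'` has a
minimal period `Function.minimalPeriod g z` in `[1, q]`, dividing `q`.  Choose `w' ∈ O'` for which
it is maximal, `d = minimalPeriod g w'`.  For `0 < i < d`: `g^[i] w' ≠ w'`; by `T2Space` and continuity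
of `g^[i]` there is an open neighbourhood `V i` of `w'` with `g^[i] z ∉ V i` for `z ∈ V i`.
`V = O' ∩ ⋂ V i`.  For `z ∈ V`: `g^[i] z ≠ z` for `0 < i < d`, so the minimal period of `z` is
`≥ d`, hence `= d` by maximality, and `g^[d] z = z`. -/
theorem exists_free_near {N : Type} [TopologicalSpace N] [T2Space N] {g : N → N}
    (hg : Continuous g) (w : N) (q : ℕ) (hq : 0 < q) (h : ∀ᶠ z in 𝓝 w, g^[q] z = z) (O : Set N)
    (hO : O ∈ 𝓝 w) : ∃ w' ∈ O, ∃ d : ℕ, d ∣ q ∧ ∃ V, FreePeriodic g w' d V := by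
  classical
  obtain ⟨O', hO'sub, hO'open, hwO'⟩ := mem_nhds_iff.mp (Filter.inter_mem hO h)
  have hper : ∀ z ∈ O', Function.IsPeriodicPt g q z := fun z hz => (hO'sub hz).2
  have hmp : ∀ z ∈ O', 0 < Function.minimalPeriod g z := fun z hz =>
    (hper z hz).minimalPeriod_pos hq
  have hmle : ∀ z ∈ O', Function.minimalPeriod g z ≤ q := fun z hz =>
    (hper z hz).minimalPeriod_le hq
  set P : ℕ → Prop := fun d => ∃ z ∈ O', Function.minimalPeriod g z = d with hP
  set d := Nat.findGreatest P q with hd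
  obtain ⟨w', hw', hdw⟩ : P d := Nat.findGreatest_spec (hmle w hwO') ⟨w, hwO', rfl⟩
  have hmax : ∀ z ∈ O', Function.minimalPeriod g z ≤ d := fun z hz =>
    Nat.le_findGreatest (hmle z hz) ⟨z, hz, rfl⟩
  have hd0 : 0 < d := by rw [← hdw]; exact hmp w' hw'
  have hne : ∀ i, 0 < i → i < d → g^[i] w' ≠ w' := by
    intro i hi0 hi heq
    have h1 : Function.minimalPeriod g w' ≤ i := Function.IsPeriodicPt.minimalPeriod_le hi0 heq
    omega
  have hV : ∀ i : ℕ, ∃ V : Set N, IsOpen V ∧ w' ∈ V ∧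
      (0 < i → i < d → ∀ z ∈ V, g^[i] z ∉ V) := by
    intro i
    by_cases hi : 0 < i ∧ i < d
    · obtain ⟨U1, U2, h1, h2, h3, h4, h5⟩ := t2_separation (hne i hi.1 hi.2)
      refine ⟨U2 ∩ g^[i] ⁻¹' U1, h2.inter (h1.preimage (hg.iterate i)), ⟨h4, h3⟩, ?_⟩
      intro _ _ z hz hz2
      exact Set.disjoint_left.mp h5 hz.2 hz2.1
    · refine ⟨Set.univ, isOpen_univ, Set.mem_univ _, ?_⟩
      intro h0 h1
      exact absurd ⟨h0, h1⟩ hi
  choose V hVo hwV hVi using hV
  refine ⟨w', (hO'sub hw').1, d, ?_, O' ∩ ⋂ i ∈ Finset.range d, V i, hd0, ?_, ?_, ?_, ?_⟩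
  · rw [← hdw]
    exact (hper w' hw').minimalPeriod_dvd
  · exact hO'open.inter (isOpen_biInter_finset fun i _ => hVo i)
  · exact ⟨hw', Set.mem_iInter₂.mpr fun i _ => hwV i⟩
  · intro z hz
    have hzV : ∀ i, i < d → z ∈ V i := fun i hi =>
      Set.mem_iInter₂.mp hz.2 i (Finset.mem_range.mpr hi)
    have h1 := hmax z hz.1
    have h2 : ¬ Function.minimalPeriod g z < d := by
      intro hlt
      have h3 := hVi (Function.minimalPeriod g z) (hmp z hz.1) hlt z (hzV _ hlt)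
      rw [Function.iterate_minimalPeriod] at h3
      exact h3 (hzV _ hlt)
    have h3 : Function.minimalPeriod g z = d := by omega
    rw [← h3]
    exact Function.iterate_minimalPeriod
  · intro i hi0 hi z hz hz2
    have hzV : z ∈ V i := Set.mem_iInter₂.mp hz.2 i (Finset.mem_range.mpr hi)
    have hzV2 : g^[i] z ∈ V i := Set.mem_iInter₂.mp hz2.2 i (Finset.mem_range.mpr hi)
    exact hVi i hi0 hi z hzV hzV2

/-- PROOF.  `q = d * e`: `(f^[d * e])^[n] = (f^[d])^[e * n]`. -/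
theorem nonwandering_of_dvd {X : Type} [TopologicalSpace X] {f : X → X} {x : X} {d q : ℕ}
    (hd : d ∣ q) (hq : 0 < q) (h : NonwanderingPt f^[q] x) : NonwanderingPt f^[d] x := by
  obtain ⟨e, rfl⟩ := hd
  have he : 0 < e := Nat.pos_of_mul_pos_left hq
  intro U hU
  obtain ⟨n, hn, y, hy, hfy⟩ := h U hU
  refine ⟨e * n, Nat.mul_pos he hn, y, hy, ?_⟩
  rw [← Function.iterate_mul, mul_assoc, Function.iterate_mul] at hfy
  exact hfy

end Pool.Agent.SC
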