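import Pool.Agent.Lib.MP_1e8d1a_an.LC.D2a
import Pool.Agent.Lib.MP_1e8d1a_an.SC.Fam3
import Pool.Agent.Lib.MP_1e8d1a_an.IR.Pair

/-! row lc-D2 -/

open scoped ContDiff Manifold Topology

namespace Pool.Agent.SC

variable {E : Type} [NormedAddCommGroup E] [NormedSpace ℝ E] {H : Type} [TopologicalSpace H]
  {I : ModelWithCorners ℝ E H} {W : Type} [TopologicalSpace W] [ChartedSpace H W]

/-- The set of points at which `F` can be closed is closed.
PROOF.  `T`, `T'` from `ir_translations p` (`IR/Pair.lean`).  `closable_of_limit`-like argument: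
family `Φ (v, q) = T' (v, F (T (v, q)))`, smooth at `(0, q)` with `Φ (0, ·) = F` (`T' (0, q) = q`).
Let `U` be a neighbourhood of `F`, `U' ⊆ U` open with `F ∈ U'`; `mem_nhds_of_family` gives `ε` such
that `F' ∈ U'` whenever `F' = Φ (v, ·)`, `‖v‖ < ε`.  The set of `q` with `∃ v, ‖v‖ < ε ∧ T (v, p) = q` is a
neighbourhood of `p`; take such a `q` with `Closable I F q` (hypothesis `h`), `D = T (v, ·)` with
inverse `T' (v, ·)`, `F' = D⁻¹ F D`; `closable_conj` gives `Closable I F' p`, and `U'` is a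
neighbourhood of `F'`. -/
theorem closable_of_near [FiniteDimensional ℝ E] [T2Space W] [CompactSpace W] [IsManifold I ∞ W]
    [I.Boundaryless] {r : ℕ∞} (F : W ≃ₘ^r⟮I, I⟯ W) (p : W)
    (h : ∀ V ∈ 𝓝 p, ∃ q ∈ V, Closable I F q) : Closable I F p := by
  obtain ⟨T, T', hT, hT', h1, h2, h0, hnear⟩ := ir_translations (I := I) p
  have hle : (r : WithTop ℕ∞) ≤ (∞ : WithTop ℕ∞) := by exact_mod_cast le_top
  have hTr : ContMDiff (𝓘(ℝ, E).prod I) I r T := hT.of_le hle
  have hTr' : ContMDiff (𝓘(ℝ, E).prod I) I r T' := hT'.of_le hle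
  have h0' : ∀ q, T' (0, q) = q := fun q => by
    have := h1 0 q
    rwa [h0] at this
  let Φ : E × W → W := fun x => T' (x.1, F (T x))
  have hΦ : ContMDiff (𝓘(ℝ, E).prod I) I r Φ := by
    have h3 : ContMDiff (𝓘(ℝ, E).prod I) I r (fun x : E × W => F (T x)) := F.contMDiff.comp hTr
    have h4 : ContMDiff (𝓘(ℝ, E).prod I) (𝓘(ℝ, E).prod I) r (fun x : E × W => (x.1, F (T x))) :=
      contMDiff_fst.prodMk h3
    exact hTr'.comp h4
  have hF : ∀ q, F q = Φ (0, q) := fun q => by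
    show F q = T' (0, F (T (0, q)))
    rw [h0', h0]
  intro U hU
  let _ : TopologicalSpace (W ≃ₘ^r⟮I, I⟯ W) := crTopology I r
  obtain ⟨U', hU'U, hU'o, hFU'⟩ := mem_nhds_iff.1 hU
  obtain ⟨ε, hε, hεU⟩ := Metric.eventually_nhds_iff.1
    (mem_nhds_of_family Φ 0 (fun q => hΦ.contMDiffAt) F hF U' (hU'o.mem_nhds hFU'))
  obtain ⟨q, ⟨v, hv, hvq⟩, hq⟩ := h _ (hnear ε hε)
  have hsm : ContMDiff I (𝓘(ℝ, E).prod I) ∞ (fun x : W => (v, x)) :=
    contMDiff_const.prodMk contMDiff_id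
  let D : W ≃ₘ^∞⟮I, I⟯ W :=
    { toFun := fun x => T (v, x)
      invFun := fun x => T' (v, x)
      left_inv := fun x => h1 v x
      right_inv := fun x => h2 v x
      contMDiff_toFun := hT.comp hsm
      contMDiff_invFun := hT'.comp hsm }
  let Dr : W ≃ₘ^r⟮I, I⟯ W :=
    { toEquiv := D.toEquiv
      contMDiff_toFun := D.contMDiff.of_le hle
      contMDiff_invFun := D.symm.contMDiff.of_le hle }
  let G : W ≃ₘ^r⟮I, I⟯ W := (Dr.trans F).trans Dr.symm
  have hG : ∀ x, G x = T' (v, F (T (v, x))) := fun x => rfl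
  have hG2 : ∀ x, G x = D.symm (F (D x)) := fun x => rfl
  have hDp : D p = q := hvq
  have hcl : Closable I G p := closable_conj D F G hG2 p (by rw [hDp]; exact hq)
  have hGU' : G ∈ U' := hεU (by simpa using hv) G hG
  obtain ⟨G', hG'U, n, hn, hnp⟩ := hcl U' (hU'o.mem_nhds hGU')
  exact ⟨G', hU'U hG'U, n, hn, hnp⟩

end Pool.Agent.SC
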