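import Pool.Agent.Lib.MP_1e8d1a_an.IR.Defs

/-! Definitions used in the statement of the final theorem. -/

open scoped ContDiff Manifold Topology

namespace Pool.Agent.SC

/-- `g` is periodic near `w`, with a period admissible for the point `x` of `f`: there is `q > 0`
with `g^q = id` on a neighbourhood of `w` and `x` is nonwandering for `f^q`. -/
def PeriodicNear {M N : Type} [TopologicalSpace M] [TopologicalSpace N] (f : M → M) (x : M)
    (g : N → N) (w : N) : Prop :=
  ∃ q : ℕ, 0 < q ∧ NonwanderingPt f^[q] x ∧ ∀ᶠ z in 𝓝 w, g^[q] z = z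

/-- `g` is conjugate to a rotation of the circle by a diffeomorphism of class `C^∞`. -/
def ConjRotation (g : Circle → Circle) : Prop :=
  ∃ (h : Circle ≃ₘ^∞⟮𝓡 1, 𝓡 1⟯ Circle) (α : ℝ), ∀ z, g z = h (Circle.exp α * h.symm z)

end Pool.Agent.SC
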