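import Pool.Agent.Lib.MP_1e8d1a_an.LC.Prod0

/-! The product with a fixed diffeomorphism is continuous in the `C^r` topology. -/

open scoped ContDiff Manifold Topology
open Filter

namespace Pool.Agent.SC

variable {E : Type} [NormedAddCommGroup E] [NormedSpace ℝ E] [FiniteDimensional ℝ E]
  {H : Type} [TopologicalSpace H] {I : ModelWithCorners ℝ E H} [I.Boundaryless]
  {M : Type} [TopologicalSpace M] [T2Space M] [CompactSpace M] [ChartedSpace H M]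
  [IsManifold I ∞ M]
  {E' : Type} [NormedAddCommGroup E'] [NormedSpace ℝ E'] [FiniteDimensional ℝ E']
  {H' : Type} [TopologicalSpace H'] {J : ModelWithCorners ℝ E' H'} [J.Boundaryless]
  {N : Type} [TopologicalSpace N] [T2Space N] [CompactSpace N] [ChartedSpace H' N]
  [IsManifold J ∞ N]

/-- the representatives of the products form a `C^k` family -/
theorem prod_CK {r : ℕ∞} (f : M ≃ₘ^r⟮I, I⟯ M) (g₀ : N ≃ₘ^r⟮J, J⟯ N)
    {φ ψ : OpenPartialHomeomorph (M × N) (ModelProd H H')}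
    (hφ : φ ∈ IsManifold.maximalAtlas (I.prod J) ∞ (M × N))
    (hψ : ψ ∈ IsManifold.maximalAtlas (I.prod J) ∞ (M × N)) {p : M × N} (hp : p ∈ φ.source)
    (hgp : (f p.1, g₀ p.2) ∈ ψ.source) {k : ℕ} (hk : (k : ℕ∞) ≤ r) :
    letI := crTopology J (W := N) r
    CK g₀ (φ.extend (I.prod J) p) k (E × E') (fun (g : N ≃ₘ^r⟮J, J⟯ N) x =>
      ψ.extend (I.prod J) (f ((φ.extend (I.prod J)).symm x).1,
        g ((φ.extend (I.prod J)).symm x).2)) := by
  let _ := crTopology J (W := N) r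
  have hkinf : ((k : ℕ) : WithTop ℕ∞) ≤ ∞ := by exact_mod_cast le_top
  obtain ⟨y₀, z₀⟩ := p
  simp only at hgp
  set θ1 := chartAt H y₀ with hθ1
  set η1 := chartAt H (f y₀) with hη1
  set θ2 := chartAt H' z₀ with hθ2
  set η2 := chartAt H' (g₀ z₀) with hη2
  have mθ1 : θ1 ∈ IsManifold.maximalAtlas I ∞ M := IsManifold.chart_mem_maximalAtlas y₀
  have mη1 : η1 ∈ IsManifold.maximalAtlas I ∞ M := IsManifold.chart_mem_maximalAtlas (f y₀)
  have mθ2 : θ2 ∈ IsManifold.maximalAtlas J ∞ N := IsManifold.chart_mem_maximalAtlas z₀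
  have mη2 : η2 ∈ IsManifold.maximalAtlas J ∞ N := IsManifold.chart_mem_maximalAtlas (g₀ z₀)
  have sθ1 : y₀ ∈ θ1.source := mem_chart_source H y₀
  have sη1 : f y₀ ∈ η1.source := mem_chart_source H (f y₀)
  have sθ2 : z₀ ∈ θ2.source := mem_chart_source H' z₀
  have sη2 : g₀ z₀ ∈ η2.source := mem_chart_source H' (g₀ z₀)
  set x₀ : E × E' := φ.extend (I.prod J) (y₀, z₀) with hx₀
  have hφx : (φ.extend (I.prod J)).symm x₀ = (y₀, z₀) := Fam2_left hp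
  have hφs : ContMDiffAt 𝓘(ℝ, E × E') (I.prod J) ∞ (φ.extend (I.prod J)).symm x₀ :=
    Fam2_symm hφ hp
  -- the right map
  set C : E × E' → E × E' := fun x => (θ1.extend I ((φ.extend (I.prod J)).symm x).1,
    θ2.extend J ((φ.extend (I.prod J)).symm x).2) with hC
  have hCs : ContDiffAt ℝ ∞ C x₀ := by
    have h1 : ContMDiffAt 𝓘(ℝ, E × E') I ∞ (fun x => ((φ.extend (I.prod J)).symm x).1) x₀ :=
      ContMDiffAt.comp x₀ (g := Prod.fst) contMDiffAt_fst hφs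
    have h2 : ContMDiffAt 𝓘(ℝ, E × E') J ∞ (fun x => ((φ.extend (I.prod J)).symm x).2) x₀ :=
      ContMDiffAt.comp x₀ (g := Prod.snd) contMDiffAt_snd hφs
    have h3 : ContMDiffAt 𝓘(ℝ, E × E') 𝓘(ℝ, E) ∞
        (fun x => θ1.extend I ((φ.extend (I.prod J)).symm x).1) x₀ := by
      refine ContMDiffAt.comp x₀ (g := θ1.extend I) ?_ h1
      rw [hφx]
      exact Fam2_ext mθ1 sθ1
    have h4 : ContMDiffAt 𝓘(ℝ, E × E') 𝓘(ℝ, E') ∞
        (fun x => θ2.extend J ((φ.extend (I.prod J)).symm x).2) x₀ := by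
      refine ContMDiffAt.comp x₀ (g := θ2.extend J) ?_ h2
      rw [hφx]
      exact Fam2_ext mθ2 sθ2
    exact (contMDiffAt_iff_contDiffAt.1 h3).prodMk (contMDiffAt_iff_contDiffAt.1 h4)
  have hCx : C x₀ = (θ1.extend I y₀, θ2.extend J z₀) := by
    simp only [hC, hφx]
  -- the left map
  set A : E × E' → E × E' := fun x => ψ.extend (I.prod J) ((η1.extend I).symm x.1,
    (η2.extend J).symm x.2) with hA
  have hAs : ContDiffAt ℝ ∞ A (η1.extend I (f y₀), η2.extend J (g₀ z₀)) := by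
    have h1 : ContMDiffAt 𝓘(ℝ, E × E') I ∞ (fun x : E × E' => (η1.extend I).symm x.1)
        (η1.extend I (f y₀), η2.extend J (g₀ z₀)) := by
      refine ContMDiffAt.comp (η1.extend I (f y₀), η2.extend J (g₀ z₀))
        (g := (η1.extend I).symm) (f := fun x : E × E' => x.1) (Fam2_symm mη1 sη1) ?_
      exact contMDiffAt_iff_contDiffAt.2 contDiffAt_fst
    have h2 : ContMDiffAt 𝓘(ℝ, E × E') J ∞ (fun x : E × E' => (η2.extend J).symm x.2)
        (η1.extend I (f y₀), η2.extend J (g₀ z₀)) := by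
      refine ContMDiffAt.comp (η1.extend I (f y₀), η2.extend J (g₀ z₀))
        (g := (η2.extend J).symm) (f := fun x : E × E' => x.2) (Fam2_symm mη2 sη2) ?_
      exact contMDiffAt_iff_contDiffAt.2 contDiffAt_snd
    rw [← contMDiffAt_iff_contDiffAt]
    refine ContMDiffAt.comp (η1.extend I (f y₀), η2.extend J (g₀ z₀))
      (g := ψ.extend (I.prod J)) (f := fun x : E × E' => ((η1.extend I).symm x.1,
        (η2.extend J).symm x.2)) ?_ (h1.prodMk h2)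
    simp only [Fam2_left sη1, Fam2_left sη2]
    exact Fam2_ext hψ hgp
  -- the middle family
  have hv1 : CK g₀ (θ1.extend I y₀, θ2.extend J z₀) k E
      (fun (_ : N ≃ₘ^r⟮J, J⟯ N) (x : E × E') => η1.extend I (f ((θ1.extend I).symm x.1))) := by
    refine CK.const_family ?_
    exact ContDiffAt.comp (θ1.extend I y₀, θ2.extend J z₀)
      (g := η1.extend I ∘ f ∘ (θ1.extend I).symm) (f := fun x : E × E' => x.1)
      (rep_contDiffAt f mθ1 mη1 sθ1 sη1 hk) contDiffAt_fst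
  have hv2 : CK g₀ (θ1.extend I y₀, θ2.extend J z₀) k E'
      (fun (g : N ≃ₘ^r⟮J, J⟯ N) (x : E × E') => η2.extend J (g ((θ2.extend J).symm x.2))) := by
    refine CK.comp_right (B := fun x : E × E' => x.2)
      (u := fun (g : N ≃ₘ^r⟮J, J⟯ N) x => η2.extend J (g ((θ2.extend J).symm x)))
      contDiffAt_snd ?_
    exact rep_CK g₀ mθ2 mη2 sθ2 sη2 hk
  have hv := hv1.prodMk hv2
  have hv' : CK g₀ (C x₀) k (E × E') (fun (g : N ≃ₘ^r⟮J, J⟯ N) (x : E × E') =>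
      (η1.extend I (f ((θ1.extend I).symm x.1)), η2.extend J (g ((θ2.extend J).symm x.2)))) := by
    rw [hCx]
    exact hv
  have hw := CK.comp_right hCs hv'
  have hAs' : ContDiffAt ℝ ∞ A ((fun (g : N ≃ₘ^r⟮J, J⟯ N) (x : E × E') =>
      (η1.extend I (f ((θ1.extend I).symm (C x).1)), η2.extend J (g ((θ2.extend J).symm (C x).2))))
      g₀ x₀) := by
    simp only [hCx, Fam2_left sθ1, Fam2_left sθ2]
    exact hAs
  have hfin := CK.comp_smooth (t₀ := g₀) (x₀ := x₀) (A := A)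
    (u := fun (g : N ≃ₘ^r⟮J, J⟯ N) (x : E × E') =>
      (η1.extend I (f ((θ1.extend I).symm (C x).1)),
        η2.extend J (g ((θ2.extend J).symm (C x).2)))) hAs' hw
  refine hfin.congr ?_
  -- equality near the point
  have hcx : Tendsto (fun z : (N ≃ₘ^r⟮J, J⟯ N) × (E × E') => (φ.extend (I.prod J)).symm z.2)
      (𝓝 (g₀, x₀)) (𝓝 (y₀, z₀)) := by
    have h1 : ContinuousAt (φ.extend (I.prod J)).symm x₀ := hφs.continuousAt
    have h2 : Tendsto (φ.extend (I.prod J)).symm (𝓝 x₀) (𝓝 (y₀, z₀)) := by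
      rw [← hφx]
      exact h1
    exact h2.comp (continuousAt_snd (p := (g₀, x₀)))
  have hc1 : Tendsto (fun z : (N ≃ₘ^r⟮J, J⟯ N) × (E × E') => ((φ.extend (I.prod J)).symm z.2).1)
      (𝓝 (g₀, x₀)) (𝓝 y₀) := (continuousAt_fst (p := (y₀, z₀))).tendsto.comp hcx
  have hc2 : Tendsto (fun z : (N ≃ₘ^r⟮J, J⟯ N) × (E × E') => ((φ.extend (I.prod J)).symm z.2).2)
      (𝓝 (g₀, x₀)) (𝓝 z₀) := (continuousAt_snd (p := (y₀, z₀))).tendsto.comp hcx
  have hc3 : Tendsto (fun z : (N ≃ₘ^r⟮J, J⟯ N) × (E × E') => f ((φ.extend (I.prod J)).symm z.2).1)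
      (𝓝 (g₀, x₀)) (𝓝 (f y₀)) := f.continuous.continuousAt.tendsto.comp hc1
  have hc4 : Tendsto (fun z : (N ≃ₘ^r⟮J, J⟯ N) × (E × E') =>
      z.1 ((φ.extend (I.prod J)).symm z.2).2) (𝓝 (g₀, x₀)) (𝓝 (g₀ z₀)) := by
    have h1 := eval_continuousAt g₀ z₀
    have h2 : Tendsto (fun z : (N ≃ₘ^r⟮J, J⟯ N) × (E × E') =>
        (z.1, ((φ.extend (I.prod J)).symm z.2).2)) (𝓝 (g₀, x₀)) (𝓝 (g₀, z₀)) :=
      (continuousAt_fst (p := (g₀, x₀))).tendsto.prodMk_nhds hc2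
    exact h1.tendsto.comp h2
  filter_upwards [hc1.eventually (θ1.open_source.mem_nhds sθ1),
    hc2.eventually (θ2.open_source.mem_nhds sθ2),
    hc3.eventually (η1.open_source.mem_nhds sη1),
    hc4.eventually (η2.open_source.mem_nhds sη2)] with z e1 e2 e3 e4
  simp only [hA, hC]
  rw [Fam2_left e1, Fam2_left e2, Fam2_left e3, Fam2_left e4]

/-- one chart condition is open in `g` -/
theorem prod_crNear {r : ℕ∞} (f : M ≃ₘ^r⟮I, I⟯ M) (g₀ : N ≃ₘ^r⟮J, J⟯ N)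
    (F₁ : (M × N) ≃ₘ^r⟮I.prod J, I.prod J⟯ (M × N))
    (φ ψ : OpenPartialHomeomorph (M × N) (ModelProd H H'))
    (hφ : φ ∈ IsManifold.maximalAtlas (I.prod J) ∞ (M × N))
    (hψ : ψ ∈ IsManifold.maximalAtlas (I.prod J) ∞ (M × N)) (K : Set (M × N)) (hK : IsCompact K)
    (hKφ : K ⊆ φ.source) (hfK : F₁ '' K ⊆ ψ.source) (k : ℕ) (hk : (k : ℕ∞) ≤ r) (ε : ℝ)
    (hF : CrNear (I.prod J) k F₁ φ ψ K ε (fun p : M × N => (f p.1, g₀ p.2))) :
    ∀ᶠ g in @nhds _ (crTopology J (W := N) r) g₀,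
      CrNear (I.prod J) k F₁ φ ψ K ε (fun p : M × N => (f p.1, g p.2)) := by
  let _ := crTopology J (W := N) r
  have key : ∀ p ∈ K, ∀ᶠ z : (N ≃ₘ^r⟮J, J⟯ N) × (M × N) in 𝓝 (g₀, p),
      (f z.2.1, z.1 z.2.2) ∈ ψ.source ∧ ∀ j ≤ k,
      ‖iteratedFDeriv ℝ j (ψ.extend (I.prod J) ∘ F₁ ∘ (φ.extend (I.prod J)).symm)
          (φ.extend (I.prod J) z.2) -
      iteratedFDeriv ℝ j (ψ.extend (I.prod J) ∘ (fun p : M × N => (f p.1, z.1 p.2)) ∘
        (φ.extend (I.prod J)).symm) (φ.extend (I.prod J) z.2)‖ < ε := by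
    intro p hp
    have hpφ : p ∈ φ.source := hKφ hp
    have hFp : (f p.1, g₀ p.2) ∈ ψ.source := hF.1 ⟨p, hp, rfl⟩
    have hcont : ContinuousAt (fun z : (N ≃ₘ^r⟮J, J⟯ N) × (M × N) => (f z.2.1, z.1 z.2.2))
        (g₀, p) := by
      have h1 : ContinuousAt (fun z : (N ≃ₘ^r⟮J, J⟯ N) × (M × N) => f z.2.1) (g₀, p) := by
        have : ContinuousAt (fun z : (N ≃ₘ^r⟮J, J⟯ N) × (M × N) => z.2.1) (g₀, p) :=
          continuousAt_snd.fst
        exact f.continuous.continuousAt.comp this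
      have h2 : Tendsto (fun z : (N ≃ₘ^r⟮J, J⟯ N) × (M × N) => (z.1, z.2.2)) (𝓝 (g₀, p))
          (𝓝 (g₀, p.2)) := by
        have : ContinuousAt (fun z : (N ≃ₘ^r⟮J, J⟯ N) × (M × N) => z.2.2) (g₀, p) :=
          continuousAt_snd.snd
        exact (continuousAt_fst (p := (g₀, p))).tendsto.prodMk_nhds this.tendsto
      have h3 : ContinuousAt (fun z : (N ≃ₘ^r⟮J, J⟯ N) × (M × N) => z.1 z.2.2) (g₀, p) :=
        (eval_continuousAt g₀ p.2).tendsto.comp h2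
      exact h1.prodMk h3
    have h1 : ∀ᶠ z : (N ≃ₘ^r⟮J, J⟯ N) × (M × N) in 𝓝 (g₀, p), (f z.2.1, z.1 z.2.2) ∈ ψ.source :=
      hcont.eventually_mem (ψ.open_source.mem_nhds hFp)
    have hφc : Tendsto (fun z : (N ≃ₘ^r⟮J, J⟯ N) × (M × N) => (z.1, φ.extend (I.prod J) z.2))
        (𝓝 (g₀, p)) (𝓝 (g₀, φ.extend (I.prod J) p)) := by
      have h2 : ContinuousAt (fun z : (N ≃ₘ^r⟮J, J⟯ N) × (M × N) => φ.extend (I.prod J) z.2)
          (g₀, p) := ContinuousAt.comp (x := (g₀, p))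
            (f := fun z : (N ≃ₘ^r⟮J, J⟯ N) × (M × N) => z.2)
            (g := φ.extend (I.prod J)) (φ.continuousAt_extend hpφ) continuousAt_snd
      exact (continuousAt_fst (p := (g₀, p))).tendsto.prodMk_nhds h2.tendsto
    have h2 : ∀ j ∈ Finset.range (k + 1), ∀ᶠ z : (N ≃ₘ^r⟮J, J⟯ N) × (M × N) in 𝓝 (g₀, p),
        ‖iteratedFDeriv ℝ j (ψ.extend (I.prod J) ∘ F₁ ∘ (φ.extend (I.prod J)).symm)
          (φ.extend (I.prod J) z.2) -
        iteratedFDeriv ℝ j (ψ.extend (I.prod J) ∘ (fun p : M × N => (f p.1, z.1 p.2)) ∘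
          (φ.extend (I.prod J)).symm) (φ.extend (I.prod J) z.2)‖ < ε := by
      intro j hj
      have hjk : j ≤ k := by simpa [Nat.lt_succ_iff] using hj
      have h3 := (prod_CK f g₀ hφ hψ hpφ hFp hk).iterated j hjk
      have h4 := h3.tendsto.comp hφc
      have h6 : ContinuousAt (iteratedFDeriv ℝ j
          (ψ.extend (I.prod J) ∘ F₁ ∘ (φ.extend (I.prod J)).symm)) (φ.extend (I.prod J) p) :=
        (rep_contDiffAt F₁ hφ hψ hpφ (hfK ⟨p, hp, rfl⟩) hk).continuousAt_iteratedFDeriv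
          (by exact_mod_cast hjk)
      have h7 : Tendsto (fun z : (N ≃ₘ^r⟮J, J⟯ N) × (M × N) => φ.extend (I.prod J) z.2)
          (𝓝 (g₀, p)) (𝓝 (φ.extend (I.prod J) p)) :=
        (continuousAt_snd (p := (g₀, φ.extend (I.prod J) p))).tendsto.comp hφc
      have h5 := h6.tendsto.comp h7
      have h8 := (h5.sub h4).norm
      have h9 := hF.2 p hp j hjk
      exact h8.eventually_lt_const h9
    have h3 := (Filter.eventually_all_finset (Finset.range (k + 1))).2 h2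
    filter_upwards [h1, h3] with z hz1 hz2
    exact ⟨hz1, fun j hj => hz2 j (Finset.mem_range.2 (Nat.lt_succ_of_le hj))⟩
  have h := hK.eventually_forall_of_forall_eventually
    (P := fun (g : N ≃ₘ^r⟮J, J⟯ N) (q : M × N) => (f q.1, g q.2) ∈ ψ.source ∧ ∀ j ≤ k,
      ‖iteratedFDeriv ℝ j (ψ.extend (I.prod J) ∘ F₁ ∘ (φ.extend (I.prod J)).symm)
          (φ.extend (I.prod J) q) -
      iteratedFDeriv ℝ j (ψ.extend (I.prod J) ∘ (fun p : M × N => (f p.1, g p.2)) ∘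
        (φ.extend (I.prod J)).symm) (φ.extend (I.prod J) q)‖ < ε) key
  filter_upwards [h] with g hg
  refine ⟨?_, fun p hp j hj => (hg p hp).2 j hj⟩
  rintro _ ⟨p, hp, rfl⟩
  exact (hg p hp).1

/-- The product with `f` is continuous in the `C^r` topology. -/
theorem prod_mem_nhds {r : ℕ∞} (f : M ≃ₘ^r⟮I, I⟯ M) (g₀ : N ≃ₘ^r⟮J, J⟯ N)
    (F₀ : (M × N) ≃ₘ^r⟮I.prod J, I.prod J⟯ (M × N)) (hF₀ : ∀ p, F₀ p = (f p.1, g₀ p.2))
    (U : Set ((M × N) ≃ₘ^r⟮I.prod J, I.prod J⟯ (M × N)))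
    (hU : U ∈ @nhds _ (crTopology (I.prod J) r) F₀) :
    ∃ U' ∈ @nhds _ (crTopology J r) g₀, ∀ g ∈ U',
      ∀ F : (M × N) ≃ₘ^r⟮I.prod J, I.prod J⟯ (M × N), (∀ p, F p = (f p.1, g p.2)) → F ∈ U := by
  let _ := crTopology J (W := N) r
  let 𝓖 : Filter ((M × N) ≃ₘ^r⟮I.prod J, I.prod J⟯ (M × N)) :=
    { sets := {U | ∀ᶠ g in 𝓝 g₀, ∀ F : (M × N) ≃ₘ^r⟮I.prod J, I.prod J⟯ (M × N),
        (∀ p, F p = (f p.1, g p.2)) → F ∈ U}
      univ_sets := Filter.Eventually.of_forall fun _ _ _ => Set.mem_univ _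
      sets_of_superset := by
        intro U V h1 h2
        have h1' : ∀ᶠ g in 𝓝 g₀, ∀ F : (M × N) ≃ₘ^r⟮I.prod J, I.prod J⟯ (M × N),
          (∀ p, F p = (f p.1, g p.2)) → F ∈ U := h1
        exact h1'.mono fun t ht G hG => h2 (ht G hG)
      inter_sets := by
        intro U V h1 h2
        have h1' : ∀ᶠ g in 𝓝 g₀, ∀ F : (M × N) ≃ₘ^r⟮I.prod J, I.prod J⟯ (M × N),
          (∀ p, F p = (f p.1, g p.2)) → F ∈ U := h1
        have h2' : ∀ᶠ g in 𝓝 g₀, ∀ F : (M × N) ≃ₘ^r⟮I.prod J, I.prod J⟯ (M × N),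
          (∀ p, F p = (f p.1, g p.2)) → F ∈ V := h2
        exact (h1'.and h2').mono fun t ht G hG => ⟨ht.1 G hG, ht.2 G hG⟩ }
  have hle : 𝓖 ≤ @nhds _ (crTopology (I.prod J) r) F₀ := by
    have hn : @nhds _ (crTopology (I.prod J) r) F₀ = _ := TopologicalSpace.nhds_generateFrom
    rw [hn]
    refine le_iInf₂ ?_
    rintro s ⟨hFs, F₁, φ, ψ, K, ε, k, hk, hφ, hψ, hK, hKφ, hfK, hε, rfl⟩
    rw [Filter.le_principal_iff]
    have hF₀' : (⇑F₀ : M × N → M × N) = fun p => (f p.1, g₀ p.2) := funext hF₀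
    have hFs' : CrNear (I.prod J) k F₁ φ ψ K ε F₀ := hFs
    rw [hF₀'] at hFs'
    have h3 := prod_crNear f g₀ F₁ φ ψ hφ hψ K hK hKφ hfK k hk ε hFs'
    show ∀ᶠ g in 𝓝 g₀, ∀ F : (M × N) ≃ₘ^r⟮I.prod J, I.prod J⟯ (M × N),
      (∀ p, F p = (f p.1, g p.2)) → F ∈ _
    refine h3.mono fun g hg F hF => ?_
    have h4 : (⇑F : M × N → M × N) = fun p => (f p.1, g p.2) := funext hF
    show CrNear (I.prod J) k F₁ φ ψ K ε F
    rw [h4]
    exact hg
  have h5 : ∀ᶠ g in 𝓝 g₀, ∀ F : (M × N) ≃ₘ^r⟮I.prod J, I.prod J⟯ (M × N),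
      (∀ p, F p = (f p.1, g p.2)) → F ∈ U := hle hU
  exact ⟨_, h5, fun g hg => hg⟩

end Pool.Agent.SC
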