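import Pool.Agent.Lib.MP_1e8d1a_an.LC.C4
import Pool.Agent.Lib.MP_1e8d1a_an.LC.C1b
import Pool.Agent.Lib.MP_1e8d1a_an.LC.D2
import Pool.Agent.Lib.MP_1e8d1a_an.LC.Prod
import Pool.Agent.Lib.MP_1e8d1a_an.LC.Defs4
import Pool.Agent.Lib.MP_1e8d1a_an.SC.RotD

/-! row lc-F1 -/

open scoped ContDiff Manifold Topology

namespace Pool.Agent.SC

variable {E : Type} [NormedAddCommGroup E] [NormedSpace ℝ E] [FiniteDimensional ℝ E]
  {H : Type} [TopologicalSpace H] {I : ModelWithCorners ℝ E H} [I.Boundaryless]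
  {M : Type} [TopologicalSpace M] [T2Space M] [CompactSpace M] [ChartedSpace H M]
  [IsManifold I ∞ M]
  {E' : Type} [NormedAddCommGroup E'] [NormedSpace ℝ E'] [FiniteDimensional ℝ E']
  {H' : Type} [TopologicalSpace H'] {J : ModelWithCorners ℝ E' H'} [J.Boundaryless]
  {N : Type} [TopologicalSpace N] [T2Space N] [CompactSpace N] [ChartedSpace H' N]
  [IsManifold J ∞ N]

/-- the product diffeomorphism -/
theorem exists_prod_diffeo {r : ℕ∞} (f : M ≃ₘ^r⟮I, I⟯ M) (g : N ≃ₘ^r⟮J, J⟯ N) :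
    ∃ F : (M × N) ≃ₘ^r⟮I.prod J, I.prod J⟯ (M × N), ∀ p, F p = (f p.1, g p.2) :=
  ⟨f.prodCongr g, fun p => rfl⟩

theorem closable_periodicNear (hE : 2 ≤ Module.finrank ℝ E') {r : ℕ∞} (f : M ≃ₘ^r⟮I, I⟯ M)
    (x : M) (g : N ≃ₘ^r⟮J, J⟯ N) (w : N) (h : PeriodicNear f x g w)
    (F : (M × N) ≃ₘ^r⟮I.prod J, I.prod J⟯ (M × N)) (hF : ∀ p, F p = (f p.1, g p.2)) :
    Closable (I.prod J) F (x, w) := by
  obtain ⟨q, hq, hx, hg⟩ := h
  refine closable_of_near F (x, w) fun V hV => ?_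
  obtain ⟨A, hA, O, hO, hAO⟩ := mem_nhds_prod_iff.1 hV
  obtain ⟨w', hw', d, hd, V', hV'⟩ := exists_free_near g.continuous w q hq hg O hO
  exact ⟨(x, w'), hAO ⟨mem_of_mem_nhds hA, hw'⟩, closable_free hE f x g w' d V' hV'
    (nonwandering_of_dvd hd hq hx) F hF⟩

/-- closure in the second factor -/
theorem closable_of_closure {r : ℕ∞} (f : M ≃ₘ^r⟮I, I⟯ M) (x : M) (w : N)
    (A : Set (N ≃ₘ^r⟮J, J⟯ N))
    (hA : ∀ g ∈ A, ∀ F : (M × N) ≃ₘ^r⟮I.prod J, I.prod J⟯ (M × N), (∀ p, F p = (f p.1, g p.2)) →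
      Closable (I.prod J) F (x, w)) (g : N ≃ₘ^r⟮J, J⟯ N) (hg : g ∈ @closure _ (crTopology J r) A)
    (F : (M × N) ≃ₘ^r⟮I.prod J, I.prod J⟯ (M × N)) (hF : ∀ p, F p = (f p.1, g p.2)) :
    Closable (I.prod J) F (x, w) := by
  intro U hU
  let _ : TopologicalSpace ((M × N) ≃ₘ^r⟮I.prod J, I.prod J⟯ (M × N)) := crTopology (I.prod J) r
  let _ : TopologicalSpace (N ≃ₘ^r⟮J, J⟯ N) := crTopology J r
  obtain ⟨U₁, hU₁, hU₁o, hFU₁⟩ := mem_nhds_iff.1 hU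
  obtain ⟨U', hU', h1⟩ := prod_mem_nhds f g F hF U₁ (hU₁o.mem_nhds hFU₁)
  obtain ⟨g', hg'U, hg'A⟩ := mem_closure_iff_nhds.1 hg U' hU'
  obtain ⟨F', hF'⟩ := exists_prod_diffeo f g'
  obtain ⟨G, hG, n, hn, hnp⟩ := hA g' hg'A F' hF' U₁ (hU₁o.mem_nhds (h1 g' hg'U F' hF'))
  exact ⟨G, hU₁ hG, n, hn, hnp⟩

/-- A recurrent point of `f` is nonwandering for all powers of `f`. -/
theorem nonwandering_pow_of_recurrent {X : Type} [TopologicalSpace X] [T1Space X] (f : X ≃ₜ X)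
    (x : X) (h : Recurrent f.toEquiv x) (q : ℕ) (hq : 0 < q) : NonwanderingPt (f : X → X)^[q] x := by
  intro U hU
  obtain ⟨n, -, h2, ⟨k, rfl⟩, y, hy, hny⟩ := returns_of_recurrent f x h q hq 0 U hU
  refine ⟨k, Nat.pos_of_mul_pos_left h2, y, hy, ?_⟩
  rw [← Function.iterate_mul]
  exact hny

/-- the circle: conjugates of rotations -/
theorem closable_circle {r : ℕ∞} (f : M ≃ₘ^r⟮I, I⟯ M) (x : M) (hx : NonwanderingPt f x)
    (g : Circle ≃ₘ^r⟮𝓡 1, 𝓡 1⟯ Circle) (hg : ConjRotation g) (w : Circle)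
    (F : (M × Circle) ≃ₘ^r⟮I.prod (𝓡 1), I.prod (𝓡 1)⟯ (M × Circle))
    (hF : ∀ p, F p = (f p.1, g p.2)) : Closable (I.prod (𝓡 1)) F (x, w) := by
  obtain ⟨h, α, hg⟩ := hg
  have hs : ∀ c : Circle, ContMDiff (𝓡 1) (𝓡 1) r (fun z : Circle => c * z) := fun c =>
    contMDiff_const.mul contMDiff_id
  let R : Circle ≃ₘ^r⟮𝓡 1, 𝓡 1⟯ Circle :=
    { toFun := fun z => Circle.exp α * z
      invFun := fun z => (Circle.exp α)⁻¹ * z
      left_inv := fun z => inv_mul_cancel_left _ _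
      right_inv := fun z => mul_inv_cancel_left _ _
      contMDiff_toFun := hs _
      contMDiff_invFun := hs _ }
  obtain ⟨F₁, hF₁⟩ := exists_prod_diffeo f R
  let D : (M × Circle) ≃ₘ^∞⟮I.prod (𝓡 1), I.prod (𝓡 1)⟯ (M × Circle) :=
    (Diffeomorph.refl I M ∞).prodCongr h.symm
  refine closable_conj D F₁ F ?_ (x, w) ?_
  · rintro ⟨y, z⟩
    rw [hF]
    show (f y, g z) = D.symm (F₁ (y, h.symm z))
    rw [hF₁, hg]
    rfl
  · exact rot_closable_nw f x hx (h.symm w) α F₁ fun y z => hF₁ (y, z)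

end Pool.Agent.SC
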