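import Pool.Agent.Lib.MP_1e8d1a_an.SC.Fam2
import Pool.Agent.Lib.MP_1e8d1a_an.SC.CkA

/-! The jets of a diffeomorphism depend continuously on it in the `C^r` topology. -/

open scoped ContDiff Manifold Topology
open Filter

namespace Pool.Agent.SC

variable {E : Type} [NormedAddCommGroup E] [NormedSpace ℝ E] {H : Type} [TopologicalSpace H]
  {I : ModelWithCorners ℝ E H} {W : Type} [TopologicalSpace W] [ChartedSpace H W]

/-- local representatives are of class `C^k` -/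
theorem rep_contDiffAt [IsManifold I ∞ W] [I.Boundaryless] {r : ℕ∞} (g : W ≃ₘ^r⟮I, I⟯ W)
    {θ η : OpenPartialHomeomorph W H} (hθ : θ ∈ IsManifold.maximalAtlas I ∞ W)
    (hη : η ∈ IsManifold.maximalAtlas I ∞ W) {q : W} (hq : q ∈ θ.source) (hgq : g q ∈ η.source)
    {k : ℕ} (hk : (k : ℕ∞) ≤ r) :
    ContDiffAt ℝ k (η.extend I ∘ g ∘ (θ.extend I).symm) (θ.extend I q) := by
  have hkr : ((k : ℕ) : WithTop ℕ∞) ≤ ((r : ℕ∞) : WithTop ℕ∞) := by exact_mod_cast hk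
  have hkinf : ((k : ℕ) : WithTop ℕ∞) ≤ ∞ := by exact_mod_cast le_top
  rw [← contMDiffAt_iff_contDiffAt]
  have hb1 : ContMDiffAt 𝓘(ℝ, E) I k (θ.extend I).symm (θ.extend I q) :=
    (Fam2_symm hθ hq).of_le hkinf
  have hb2 : ContMDiffAt 𝓘(ℝ, E) I k (g ∘ (θ.extend I).symm) (θ.extend I q) := by
    refine ContMDiffAt.comp (θ.extend I q) ?_ hb1
    exact (g.contMDiff _).of_le hkr
  refine ContMDiffAt.comp (θ.extend I q) ?_ hb2
  refine (Fam2_ext hη ?_).of_le hkinf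
  simp only [Function.comp_apply, Fam2_left hq]
  exact hgq

omit [ChartedSpace H W] in
theorem crNear_self {k : ℕ} {f : W → W} {φ ψ : OpenPartialHomeomorph W H} {K : Set W} {ε : ℝ}
    (hε : 0 < ε) (hK : f '' K ⊆ ψ.source) : CrNear I k f φ ψ K ε f := by
  refine ⟨hK, fun p _ j _ => ?_⟩
  rw [sub_self, norm_zero]
  exact hε

/-- the jets, at the points of the manifold -/
theorem jet_tendsto [FiniteDimensional ℝ E] [T2Space W] [CompactSpace W] [IsManifold I ∞ W]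
    [I.Boundaryless] {r : ℕ∞} (g₀ : W ≃ₘ^r⟮I, I⟯ W) {θ η : OpenPartialHomeomorph W H}
    (hθ : θ ∈ IsManifold.maximalAtlas I ∞ W) (hη : η ∈ IsManifold.maximalAtlas I ∞ W) {z₀ : W}
    (hz : z₀ ∈ θ.source) (hgz : g₀ z₀ ∈ η.source) {k : ℕ} (hk : (k : ℕ∞) ≤ r) {j : ℕ}
    (hj : j ≤ k) :
    letI := crTopology I (W := W) r
    (∀ᶠ z : (W ≃ₘ^r⟮I, I⟯ W) × W in 𝓝 (g₀, z₀), z.2 ∈ θ.source ∧ z.1 z.2 ∈ η.source) ∧
    Tendsto (fun z : (W ≃ₘ^r⟮I, I⟯ W) × W =>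
      iteratedFDeriv ℝ j (η.extend I ∘ z.1 ∘ (θ.extend I).symm) (θ.extend I z.2)) (𝓝 (g₀, z₀))
      (𝓝 (iteratedFDeriv ℝ j (η.extend I ∘ g₀ ∘ (θ.extend I).symm) (θ.extend I z₀))) := by
  let _ := crTopology I (W := W) r
  have hV : θ.source ∩ g₀ ⁻¹' η.source ∈ 𝓝 z₀ := Filter.inter_mem (θ.open_source.mem_nhds hz)
    (g₀.continuous.continuousAt.preimage_mem_nhds (η.open_source.mem_nhds hgz))
  obtain ⟨K, hK, hKV, hKc⟩ := local_compact_nhds hV
  have hKθ : K ⊆ θ.source := fun q hq => (hKV hq).1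
  have hgK : g₀ '' K ⊆ η.source := by
    rintro _ ⟨q, hq, rfl⟩
    exact (hKV hq).2
  have hB : ∀ ε : ℝ, 0 < ε → {g : W ≃ₘ^r⟮I, I⟯ W | CrNear I k g₀ θ η K ε g} ∈ 𝓝 g₀ := by
    intro ε hε
    refine IsOpen.mem_nhds ?_ (crNear_self hε hgK)
    exact TopologicalSpace.isOpen_generateFrom_of_mem
      ⟨g₀, θ, η, K, ε, k, hk, hθ, hη, hKc, hKθ, hgK, hε, rfl⟩
  constructor
  · have h1 : {z : (W ≃ₘ^r⟮I, I⟯ W) × W | CrNear I k g₀ θ η K 1 z.1 ∧ z.2 ∈ K} ∈ 𝓝 (g₀, z₀) :=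
      prod_mem_nhds (hB 1 one_pos) hK
    filter_upwards [h1] with z hz
    exact ⟨hKθ hz.2, hz.1.1 ⟨z.2, hz.2, rfl⟩⟩
  · rw [Metric.tendsto_nhds]
    intro ε hε
    have h1 : {z : (W ≃ₘ^r⟮I, I⟯ W) × W | CrNear I k g₀ θ η K (ε / 2) z.1 ∧ z.2 ∈ K} ∈
        𝓝 (g₀, z₀) := prod_mem_nhds (hB (ε / 2) (by positivity)) hK
    have h2 : ContinuousAt (iteratedFDeriv ℝ j (η.extend I ∘ g₀ ∘ (θ.extend I).symm))
        (θ.extend I z₀) :=
      (rep_contDiffAt g₀ hθ hη hz hgz hk).continuousAt_iteratedFDeriv (by exact_mod_cast hj)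
    have h3 : ContinuousAt (fun z : (W ≃ₘ^r⟮I, I⟯ W) × W =>
        iteratedFDeriv ℝ j (η.extend I ∘ g₀ ∘ (θ.extend I).symm) (θ.extend I z.2)) (g₀, z₀) := by
      have h4 : ContinuousAt (fun z : (W ≃ₘ^r⟮I, I⟯ W) × W => θ.extend I z.2) (g₀, z₀) :=
        ContinuousAt.comp (x := (g₀, z₀)) (f := fun z : (W ≃ₘ^r⟮I, I⟯ W) × W => z.2)
          (g := θ.extend I) (θ.continuousAt_extend hz) continuousAt_snd
      exact ContinuousAt.comp (x := (g₀, z₀)) (f := fun z : (W ≃ₘ^r⟮I, I⟯ W) × W => θ.extend I z.2)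
        (g := iteratedFDeriv ℝ j (η.extend I ∘ g₀ ∘ (θ.extend I).symm)) h2 h4
    have h5 := (Metric.tendsto_nhds.1 h3) (ε / 2) (by positivity)
    filter_upwards [h1, h5] with z hz1 hz2
    have h6 := hz1.1.2 z.2 hz1.2 j hj
    rw [← dist_eq_norm, dist_comm] at h6
    calc _ ≤ _ := dist_triangle _
            (iteratedFDeriv ℝ j (η.extend I ∘ g₀ ∘ (θ.extend I).symm) (θ.extend I z.2)) _
      _ < ε / 2 + ε / 2 := add_lt_add h6 hz2
      _ = ε := by ring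

/-- evaluation is jointly continuous -/
theorem eval_continuousAt [FiniteDimensional ℝ E] [T2Space W] [CompactSpace W] [IsManifold I ∞ W]
    [I.Boundaryless] {r : ℕ∞} (g₀ : W ≃ₘ^r⟮I, I⟯ W) (z₀ : W) :
    letI := crTopology I (W := W) r
    ContinuousAt (fun z : (W ≃ₘ^r⟮I, I⟯ W) × W => z.1 z.2) (g₀, z₀) := by
  let _ := crTopology I (W := W) r
  obtain ⟨h1, h2⟩ := jet_tendsto g₀ (IsManifold.chart_mem_maximalAtlas (I := I) (n := ∞) z₀)
    (IsManifold.chart_mem_maximalAtlas (I := I) (n := ∞) (g₀ z₀)) (mem_chart_source H z₀)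
    (mem_chart_source H (g₀ z₀)) (k := 0) (by simp) (j := 0) le_rfl
  set θ := chartAt H z₀ with hθ
  set η := chartAt H (g₀ z₀) with hη
  have h3 : Tendsto (fun z : (W ≃ₘ^r⟮I, I⟯ W) × W =>
      (η.extend I ∘ z.1 ∘ (θ.extend I).symm) (θ.extend I z.2)) (𝓝 (g₀, z₀))
      (𝓝 ((η.extend I ∘ g₀ ∘ (θ.extend I).symm) (θ.extend I z₀))) := by
    have h4 := ((continuousMultilinearCurryFin0 ℝ E E).continuous.tendsto _).comp h2
    exact h4
  have h5 : Tendsto (fun z : (W ≃ₘ^r⟮I, I⟯ W) × W => η.extend I (z.1 z.2)) (𝓝 (g₀, z₀))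
      (𝓝 (η.extend I (g₀ z₀))) := by
    have e1 : (η.extend I ∘ g₀ ∘ (θ.extend I).symm) (θ.extend I z₀) = η.extend I (g₀ z₀) := by
      simp only [Function.comp_apply]
      rw [Fam2_left (mem_chart_source H z₀)]
    rw [e1] at h3
    refine h3.congr' ?_
    filter_upwards [h1] with z hz
    simp only [Function.comp_apply]
    rw [Fam2_left hz.1]
  have h6 : ContinuousAt (η.extend I).symm (η.extend I (g₀ z₀)) :=
    (Fam2_symm (I := I) (IsManifold.chart_mem_maximalAtlas (I := I) (n := ∞) (g₀ z₀))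
      (mem_chart_source H (g₀ z₀))).continuousAt
  have h7 := h6.tendsto.comp h5
  rw [Fam2_left (mem_chart_source H (g₀ z₀))] at h7
  refine h7.congr' ?_
  filter_upwards [h1] with z hz
  simp only [Function.comp_apply]
  exact Fam2_left hz.2

/-- the local representatives form a `C^k` family -/
theorem rep_CK [FiniteDimensional ℝ E] [T2Space W] [CompactSpace W] [IsManifold I ∞ W]
    [I.Boundaryless] {r : ℕ∞} (g₀ : W ≃ₘ^r⟮I, I⟯ W) {θ η : OpenPartialHomeomorph W H}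
    (hθ : θ ∈ IsManifold.maximalAtlas I ∞ W) (hη : η ∈ IsManifold.maximalAtlas I ∞ W) {z₀ : W}
    (hz : z₀ ∈ θ.source) (hgz : g₀ z₀ ∈ η.source) {k : ℕ} (hk : (k : ℕ∞) ≤ r) :
    letI := crTopology I (W := W) r
    CK g₀ (θ.extend I z₀) k E (fun (g : W ≃ₘ^r⟮I, I⟯ W) x => η.extend I (g ((θ.extend I).symm x))) := by
  let _ := crTopology I (W := W) r
  have hx : ∀ᶠ x in 𝓝 (θ.extend I z₀), θ.extend I ((θ.extend I).symm x) = x := by
    have h1 : (θ.extend I).target ∈ 𝓝 (θ.extend I z₀) :=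
      θ.isOpen_extend_target.mem_nhds ((θ.extend I).map_source (by rwa [θ.extend_source]))
    filter_upwards [h1] with x hx
    exact (θ.extend I).right_inv hx
  have hc : ContinuousAt (fun z : (W ≃ₘ^r⟮I, I⟯ W) × E => (z.1, (θ.extend I).symm z.2))
      (g₀, θ.extend I z₀) := by
    have h1 : ContinuousAt (θ.extend I).symm (θ.extend I z₀) := (Fam2_symm hθ hz).continuousAt
    exact continuousAt_fst.prodMk (ContinuousAt.comp (x := (g₀, θ.extend I z₀))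
      (f := fun z : (W ≃ₘ^r⟮I, I⟯ W) × E => z.2) (g := (θ.extend I).symm) h1 continuousAt_snd)
  have hx' : ∀ᶠ z : (W ≃ₘ^r⟮I, I⟯ W) × E in 𝓝 (g₀, θ.extend I z₀),
      θ.extend I ((θ.extend I).symm z.2) = z.2 :=
    (continuousAt_snd (p := (g₀, θ.extend I z₀))).eventually hx
  have hleft : (g₀, (θ.extend I).symm (θ.extend I z₀)) = (g₀, z₀) := by rw [Fam2_left hz]
  have h2 : Tendsto (fun z : (W ≃ₘ^r⟮I, I⟯ W) × E => (z.1, (θ.extend I).symm z.2))
      (𝓝 (g₀, θ.extend I z₀)) (𝓝 (g₀, z₀)) := by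
    rw [← hleft]
    exact hc
  refine CK.of_iterated ?_ ?_
  · have h1 := (jet_tendsto g₀ hθ hη hz hgz hk (j := 0) (Nat.zero_le k)).1
    filter_upwards [h2.eventually h1, hx'] with z hz1 hz2
    have h3 := rep_contDiffAt z.1 hθ hη hz1.1 hz1.2 hk
    rw [hz2] at h3
    exact h3
  · intro j hj
    have h1 := (jet_tendsto g₀ hθ hη hz hgz hk hj).2
    have h3 := h1.comp h2
    refine (h3.congr' ?_)
    filter_upwards [hx'] with z hz2
    simp only [Function.comp_apply]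
    rw [hz2]
    rfl

end Pool.Agent.SC
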