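import Pool.Agent.Lib.MP_1e8d1a_an.LC.Defs
import Pool.Agent.Lib.MP_1e8d1a_an.SC.Trans2

/-! row lc-B1 -/

open scoped ContDiff Manifold Topology

namespace Pool.Agent.SC

variable {E : Type} [NormedAddCommGroup E] [NormedSpace ℝ E] {H : Type} [TopologicalSpace H]
  {I : ModelWithCorners ℝ E H} {W : Type} [TopologicalSpace W] [ChartedSpace H W]

/-- `trans2_tr` (`SC/Trans2.lean`) transports a map of `E` that is the identity outside the ball of
radius `δ` to `W` by the chart at `p`.  Smoothness of the transported family at one parameter `t`.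
PROOF.  Copy the proof of `trans2_smooth` in `SC/Trans2.lean` (there `P = E` and `S` is globally
smooth); here `S` is smooth at the points `(t, y)`, `t` fixed, only, and `hS2` holds for `v` near `t`
only: all steps are local. -/
theorem lc_tr_smooth [FiniteDimensional ℝ E] [T2Space W] [IsManifold I ∞ W]
    [I.Boundaryless] {P : Type} [NormedAddCommGroup P] [NormedSpace ℝ P] (p : W) (δ : ℝ)
    (hball : Metric.closedBall (extChartAt I p p) δ ⊆ (extChartAt I p).target) (S : P × E → E)
    (t : P) (hS : ∀ y, ContDiffAt ℝ ∞ S (t, y)) (hS1 : ∀ v y, δ ≤ ‖y‖ → S (v, y) = y)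
    (hS2 : ∀ᶠ v in 𝓝 t, ∀ y, ‖y‖ < δ → ‖S (v, y)‖ < δ) (q : W) :
    ContMDiffAt (𝓘(ℝ, P).prod I) I ∞
      (fun x : P × W => trans2_tr I p (fun y => S (x.1, y)) x.2) (t, q) := by
  have hS2t : ∀ y, ‖y‖ < δ → ‖S (t, y)‖ < δ := hS2.self_of_nhds
  by_cases hx : q ∈ (extChartAt I p).source
  · have hev : (fun x : P × W => trans2_tr I p (fun y => S (x.1, y)) x.2) =ᶠ[𝓝 (t, q)]
        fun x : P × W => (extChartAt I p).symm
          (extChartAt I p p + S (x.1, extChartAt I p x.2 - extChartAt I p p)) := by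
      have h1 : ∀ᶠ z : P × W in 𝓝 (t, q), z.2 ∈ (extChartAt I p).source :=
        continuousAt_snd.eventually ((isOpen_extChartAt_source (I := I) p).mem_nhds hx)
      filter_upwards [h1] with z hz
      exact trans2_tr_of_mem p _ z.2 hz
    refine ContMDiffAt.congr_of_eventuallyEq ?_ hev
    have hz := trans2_mem_target p δ hball (fun y => S (t, y)) (hS1 t) hS2t q hx
    have h2 : ContMDiffAt 𝓘(ℝ, E) I ∞ (extChartAt I p).symm
        (extChartAt I p p + S (t, extChartAt I p q - extChartAt I p p)) :=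
      (contMDiffOn_extChartAt_symm p).contMDiffAt ((isOpen_extChartAt_target p).mem_nhds hz)
    have h3 : ContMDiffAt (𝓘(ℝ, P).prod I) 𝓘(ℝ, E) ∞
        (fun z : P × W => extChartAt I p z.2) (t, q) := by
      have h4 : ContMDiffAt I 𝓘(ℝ, E) ∞ (extChartAt I p) q :=
        contMDiffAt_extChartAt' (by rwa [extChartAt_source] at hx)
      exact ContMDiffAt.comp (t, q) h4 contMDiffAt_snd
    have h5 : ContMDiffAt (𝓘(ℝ, P).prod I) 𝓘(ℝ, P × E) ∞
        (fun z : P × W => (z.1, extChartAt I p z.2 - extChartAt I p p)) (t, q) :=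
      ContMDiffAt.prodMk_space contMDiffAt_fst (h3.sub contMDiffAt_const)
    have h6 : ContMDiffAt (𝓘(ℝ, P).prod I) 𝓘(ℝ, E) ∞
        (fun z : P × W => S (z.1, extChartAt I p z.2 - extChartAt I p p)) (t, q) :=
      ContMDiffAt.comp (t, q) ((hS _).contMDiffAt) h5
    have h7 : ContMDiffAt (𝓘(ℝ, P).prod I) 𝓘(ℝ, E) ∞
        (fun z : P × W => extChartAt I p p + S (z.1, extChartAt I p z.2 - extChartAt I p p))
        (t, q) :=
      contMDiffAt_const.add h6
    exact ContMDiffAt.comp (t, q) h2 h7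
  · have hx' : q ∉ (extChartAt I p).symm '' Metric.closedBall (extChartAt I p p) δ := by
      rintro ⟨z, hz, hz2⟩
      apply hx
      rw [← hz2]
      exact (extChartAt I p).map_target (hball hz)
    have hev : (fun x : P × W => trans2_tr I p (fun y => S (x.1, y)) x.2) =ᶠ[𝓝 (t, q)]
        fun x : P × W => x.2 := by
      have h1 : ∀ᶠ z : P × W in 𝓝 (t, q),
          z.2 ∈ ((extChartAt I p).symm '' Metric.closedBall (extChartAt I p p) δ)ᶜ :=
        continuousAt_snd.eventually
          ((trans2_isClosed (I := I) p δ hball).isOpen_compl.mem_nhds hx')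
      filter_upwards [h1] with z hz
      exact trans2_eq_self p δ _ (hS1 z.1) z.2 hz
    exact ContMDiffAt.congr_of_eventuallyEq contMDiffAt_snd hev

end Pool.Agent.SC
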