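import Pool.Agent.Lib.MP_1e8d1a_an.LC.Defs
import Pool.Agent.Lib.MP_1e8d1a_an.SC.MobA

/-! row lc-A1 -/

open scoped ContDiff Manifold Topology

namespace Pool.Agent.SC

/-- PROOF.  `‖c * w‖ = c`, so `re (c * w) / ‖c * w‖ = re w`, the same for `im`; unfold `tau`
(`SC/Defs2.lean`) with `a = 1`. -/
theorem ctau_mul_circle (s b c : ℝ) (hc : 0 < c) (w : Circle) :
    ctau s b ((c : ℂ) * (w : ℂ)) = tau 1 s b w := by
  have h1 : ‖(c : ℂ) * (w : ℂ)‖ = c := by
    rw [norm_mul, Circle.norm_coe, mul_one, Complex.norm_real, Real.norm_of_nonneg hc.le]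
  have h2 : ((c : ℂ) * (w : ℂ)).re / c = (w : ℂ).re := by
    rw [Complex.re_ofReal_mul, mul_div_cancel_left₀ _ hc.ne']
  have h3 : ((c : ℂ) * (w : ℂ)).im / c = (w : ℂ).im := by
    rw [Complex.im_ofReal_mul, mul_div_cancel_left₀ _ hc.ne']
  unfold ctau tau
  rw [h1, h2, h3]

/-- multiplication of the parameters by a positive number -/
theorem A1_tau_scale (a s b k : ℝ) (hk : 0 < k) (w : Circle) :
    tau (k * a) (k * s) (k * b) w = tau a s b w := by
  unfold tau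
  have h1 : k * s + k * b * (w : ℂ).re = k * (s + b * (w : ℂ).re) := by ring
  have h2 : k * a + k * b * (w : ℂ).im = k * (a + b * (w : ℂ).im) := by ring
  rw [h1, h2, mul_div_mul_left _ _ hk.ne']

/-- PROOF.  Write `z = c * w`, `c = ‖z‖ > 0`, `w : Circle` the point `z / ‖z‖`.  Then
`crot (ctau s b z) z = c * mob 1 s b w` (`mob` is defined in `SC/Defs2.lean`, `Circle.coe_exp`), so by
`ctau_mul_circle` it is enough that `tau 1 (-s) (-b) (mob 1 s b w) = - tau 1 s b w`.  Let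
`k = 1 / sqrt (1 + s ^ 2 - b ^ 2) > 0` (`b ^ 2 < 1`).  `tau 1 s b = tau k (k s) (k b)` and
`tau 1 (-s) (-b) = tau k (-(k s)) (-(k b))` (numerator and denominator are multiplied by `k`), hence
`mob 1 s b = mob k (k s) (k b)`, and `tau_mob` (`SC/MobA.lean`) applies with
`a = k`: `k ^ 2 + (k s) ^ 2 - (k b) ^ 2 = 1`, `|k b| < k`. -/
theorem ctau_crot_neg (s b : ℝ) (hb : |b| < 1) (z : ℂ) (hz : z ≠ 0) :
    ctau (-s) (-b) (crot (ctau s b z) z) = - ctau s b z := by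
  have hc : 0 < ‖z‖ := norm_pos_iff.mpr hz
  obtain ⟨w, hw⟩ : ∃ w : Circle, z = (‖z‖ : ℂ) * (w : ℂ) := by
    refine ⟨⟨z / ‖z‖, ?_⟩, ?_⟩
    · rw [Submonoid.unitSphere, ← SetLike.mem_coe]
      simp [hc.ne']
    · have hne : ((‖z‖ : ℝ) : ℂ) ≠ 0 := by
        exact_mod_cast hc.ne'
      show z = (‖z‖ : ℂ) * (z / ‖z‖)
      field_simp
  have hc1 : ctau s b z = tau 1 s b w := by
    rw [hw]
    have := ctau_mul_circle s b ‖z‖ hc w
    convert this using 2
  have hcr : crot (ctau s b z) z = (‖z‖ : ℂ) * ((mob 1 s b w : Circle) : ℂ) := by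
    rw [hc1]
    unfold crot mob
    rw [Circle.coe_mul, Circle.coe_exp]
    conv_lhs => rw [hw]
    ring
  rw [hcr, hc1, ctau_mul_circle _ _ _ hc]
  obtain ⟨k, hk⟩ : ∃ k : ℝ, k = 1 / Real.sqrt (1 + s ^ 2 - b ^ 2) := ⟨_, rfl⟩
  have hb2 : b ^ 2 < 1 := by
    rw [← sq_abs]
    nlinarith [abs_nonneg b]
  have hpos : 0 < 1 + s ^ 2 - b ^ 2 := by nlinarith [sq_nonneg s]
  have hk0 : 0 < k := by
    rw [hk]
    positivity
  have hk2 : k ^ 2 * (1 + s ^ 2 - b ^ 2) = 1 := by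
    rw [hk, div_pow, Real.sq_sqrt hpos.le]
    field_simp
  have e1 : tau 1 s b w = tau k (k * s) (k * b) w := by
    rw [← A1_tau_scale 1 s b k hk0, mul_one]
  have e2 : ∀ w', tau 1 (-s) (-b) w' = tau k (-(k * s)) (-(k * b)) w' := by
    intro w'
    rw [← A1_tau_scale 1 (-s) (-b) k hk0, mul_one, mul_neg, mul_neg]
  have e3 : mob 1 s b w = mob k (k * s) (k * b) w := by
    unfold mob
    rw [e1]
  rw [e2, e3, e1]
  refine tau_mob ?_ ?_ w
  · linarith
  · rw [abs_mul, abs_of_pos hk0]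
    nlinarith

end Pool.Agent.SC
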