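import Pool.Agent.Lib.MP_1e8d1a_an.LC.A1

/-! row lc-A3 -/

open scoped ContDiff Manifold Topology

namespace Pool.Agent.SC

theorem norm_crot (u : ℝ) (z : ℂ) : ‖crot u z‖ = ‖z‖ := by
  rw [crot, norm_mul, Complex.norm_exp_ofReal_mul_I, one_mul]

theorem A3_crot_zero (z : ℂ) : crot 0 z = z := by
  rw [crot, mul_zero, Complex.ofReal_zero, zero_mul, Complex.exp_zero, one_mul]

theorem A3_crot_at_zero (u : ℝ) : crot u 0 = 0 := by
  rw [crot, mul_zero]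

theorem A3_crot_crot (u : ℝ) (z : ℂ) : crot (-u) (crot u z) = z := by
  rw [crot, crot, ← mul_assoc, ← Complex.exp_add, ← add_mul, ← Complex.ofReal_add]
  have h : 2 * Real.pi * -u + 2 * Real.pi * u = 0 := by ring
  rw [h, Complex.ofReal_zero, zero_mul, Complex.exp_zero, one_mul]

theorem A3_ctau_zero (z : ℂ) : ctau 0 0 z = 0 := by
  simp [ctau]

/-- PROOF.  `χ (dmob χ t x) = χ x` by `LCCut.inv` (`norm_crot`).  If `x.1 = 0` both maps fix `x`
(`crot u 0 = 0`).  If `x.1 ≠ 0` use `ctau_crot_neg` with `s = t.1 * χ x`, `b = t.2 * χ x`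
(`|b| < 1` since `0 ≤ χ ≤ 1`): the first component is
`crot (- u) (crot u z) = z`, `u = ctau s b z` (note `(-t).1 * χ x = -(t.1 * χ x)`). -/
theorem dmob_neg {Q : Type} [NormedAddCommGroup Q] [NormedSpace ℝ Q] {ρ : ℝ} {χ : ℂ × Q → ℝ}
    (h : LCCut ρ χ) (t : ℝ × ℝ) (ht : |t.2| < 1) (x : ℂ × Q) :
    dmob χ (-t) (dmob χ t x) = x := by
  obtain ⟨z, y⟩ := x
  have hχ : χ (dmob χ t (z, y)) = χ (z, y) := by
    rw [dmob]
    exact h.inv _ _ _ (norm_crot _ _)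
  have h1 : (dmob χ t (z, y)).1 = crot (ctau (t.1 * χ (z, y)) (t.2 * χ (z, y)) z) z := rfl
  have h2 : (dmob χ t (z, y)).2 = y := rfl
  rw [dmob, hχ, h1, h2]
  refine Prod.ext ?_ rfl
  by_cases hz : z = 0
  · simp only [hz, A3_crot_at_zero]
  · have hb : |t.2 * χ (z, y)| < 1 := by
      rw [abs_mul, abs_of_nonneg (h.nonneg _)]
      calc |t.2| * χ (z, y) ≤ |t.2| * 1 :=
            mul_le_mul_of_nonneg_left (h.le_one _) (abs_nonneg _)
        _ = |t.2| := mul_one _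
        _ < 1 := ht
    have h3 := ctau_crot_neg (t.1 * χ (z, y)) (t.2 * χ (z, y)) hb z hz
    have e1 : (-t).1 * χ (z, y) = -(t.1 * χ (z, y)) := by
      rw [Prod.fst_neg, neg_mul]
    have e2 : (-t).2 * χ (z, y) = -(t.2 * χ (z, y)) := by
      rw [Prod.snd_neg, neg_mul]
    simp only [e1, e2, h3, A3_crot_crot]

/-- PROOF.  `ctau 0 0 z = 0`, `crot 0 z = z`. -/
theorem dmob_of_eq_zero {Q : Type} (χ : ℂ × Q → ℝ) (t : ℝ × ℝ) (x : ℂ × Q) (hx : χ x = 0) :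
    dmob χ t x = x := by
  rw [dmob, hx, mul_zero, mul_zero, A3_ctau_zero, A3_crot_zero]

theorem dmob_zero {Q : Type} (χ : ℂ × Q → ℝ) (x : ℂ × Q) : dmob χ 0 x = x := by
  rw [dmob, Prod.fst_zero, Prod.snd_zero, zero_mul, A3_ctau_zero, A3_crot_zero]

end Pool.Agent.SC
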