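import Pool.Agent.Lib.MP_1e8d1a_an.LC.A3

/-! row lc-A4 -/

open scoped ContDiff Manifold Topology

namespace Pool.Agent.SC

theorem A4_abs_im_div_le (z : ℂ) : |z.im / ‖z‖| ≤ 1 := by
  rw [abs_div, abs_norm]
  exact div_le_one_of_le₀ (Complex.abs_im_le_norm z) (norm_nonneg z)

theorem A4_denom_ne {b : ℝ} (hb : |b| < 1) (z : ℂ) : 1 + b * (z.im / ‖z‖) ≠ 0 := by
  have h1 : |b * (z.im / ‖z‖)| ≤ |b| := by
    rw [abs_mul]
    exact mul_le_of_le_one_right (abs_nonneg _) (A4_abs_im_div_le z)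
  have h2 := (abs_le.1 h1).1
  intro h3
  linarith

theorem A4_contDiffAt_ctau {E : Type} [NormedAddCommGroup E] [NormedSpace ℝ E] {s b : E → ℝ}
    {z : E → ℂ} {p : E} (hs : ContDiffAt ℝ ∞ s p) (hb : ContDiffAt ℝ ∞ b p)
    (hz : ContDiffAt ℝ ∞ z p) (hz0 : z p ≠ 0) (hb1 : |b p| < 1) :
    ContDiffAt ℝ ∞ (fun q => ctau (s q) (b q) (z q)) p := by
  have hn : ContDiffAt ℝ ∞ (fun q => ‖z q‖) p := hz.norm ℝ hz0
  have hn0 : ‖z p‖ ≠ 0 := norm_ne_zero_iff.2 hz0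
  have hre : ContDiffAt ℝ ∞ (fun q => (z q).re) p := Complex.reCLM.contDiff.contDiffAt.comp p hz
  have him : ContDiffAt ℝ ∞ (fun q => (z q).im) p := Complex.imCLM.contDiff.contDiffAt.comp p hz
  have h1 : ContDiffAt ℝ ∞ (fun q => s q + b q * ((z q).re / ‖z q‖)) p :=
    hs.add (hb.mul (hre.div hn hn0))
  have h2 : ContDiffAt ℝ ∞ (fun q => 1 + b q * ((z q).im / ‖z q‖)) p :=
    contDiffAt_const.add (hb.mul (him.div hn hn0))
  unfold ctau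
  exact contDiffAt_const.mul (Real.contDiff_arctan.contDiffAt.comp p
    (h1.div h2 (A4_denom_ne hb1 (z p))))

theorem A4_contDiffAt_crot {E : Type} [NormedAddCommGroup E] [NormedSpace ℝ E] {u : E → ℝ}
    {z : E → ℂ} {p : E} (hu : ContDiffAt ℝ ∞ u p) (hz : ContDiffAt ℝ ∞ z p) :
    ContDiffAt ℝ ∞ (fun q => crot (u q) (z q)) p := by
  unfold crot
  have h1 : ContDiffAt ℝ ∞ (fun q => ((2 * Real.pi * u q : ℝ) : ℂ)) p :=
    Complex.ofRealCLM.contDiff.contDiffAt.comp p (contDiffAt_const.mul hu)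
  exact ((h1.mul contDiffAt_const).cexp).mul hz

/-- Smoothness of `(t, x) ↦ dmob χ t x`.
PROOF.  If `‖x.1‖ < ρ / 2` then near `(t, x)` the map is `(t, x) ↦ x` (`LCCut.zero`,
`dmob_of_eq_zero`).  Otherwise `x.1 ≠ 0`: `z ↦ ‖z‖` is smooth at `x.1` (`contDiffAt_norm`), so
`z.re / ‖z‖`, `z.im / ‖z‖` are smooth there, `|im z / ‖z‖| ≤ 1`, `|t.2 χ x| ≤ |t.2| < 1`, so the
denominator of `ctau (t.1 χ x) (t.2 χ x) z` is positive at `(t, x)` and `ctau` is smooth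
(`ContDiffAt.div`, `Real.contDiff_arctan`; compare `SC/ClkA.lean`); `crot u z` is smooth in
`(u, z)` (`Complex.contDiff_exp`). -/
theorem contDiffAt_dmob {Q : Type} [NormedAddCommGroup Q] [NormedSpace ℝ Q] {ρ : ℝ}
    {χ : ℂ × Q → ℝ} (h : LCCut ρ χ) (t : ℝ × ℝ) (ht : |t.2| < 1) (x : ℂ × Q) :
    ContDiffAt ℝ ∞ (fun p : (ℝ × ℝ) × (ℂ × Q) => dmob χ p.1 p.2) (t, x) := by
  by_cases hx : ‖x.1‖ < ρ / 2
  · have h1 : (fun p : (ℝ × ℝ) × (ℂ × Q) => dmob χ p.1 p.2) =ᶠ[𝓝 (t, x)] fun p => p.2 := by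
      have h2 : ∀ᶠ p : (ℝ × ℝ) × (ℂ × Q) in 𝓝 (t, x), ‖p.2.1‖ < ρ / 2 := by
        have h3 : ContinuousAt (fun p : (ℝ × ℝ) × (ℂ × Q) => ‖p.2.1‖) (t, x) := by fun_prop
        exact h3.eventually_lt continuousAt_const hx
      filter_upwards [h2] with p hp
      exact dmob_of_eq_zero χ p.1 p.2 (h.zero p.2.1 p.2.2 hp.le)
    exact contDiffAt_snd.congr_of_eventuallyEq h1
  · have hx0 : x.1 ≠ 0 := by
      intro h0
      apply hx
      rw [h0, norm_zero]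
      have := h.pos
      linarith
    have hχ : ContDiffAt ℝ ∞ (fun p : (ℝ × ℝ) × (ℂ × Q) => χ p.2) (t, x) :=
      (h.smooth.comp contDiff_snd).contDiffAt
    have ht1 : ContDiffAt ℝ ∞ (fun p : (ℝ × ℝ) × (ℂ × Q) => p.1.1) (t, x) :=
      (contDiff_fst.comp contDiff_fst).contDiffAt
    have ht2 : ContDiffAt ℝ ∞ (fun p : (ℝ × ℝ) × (ℂ × Q) => p.1.2) (t, x) :=
      (contDiff_snd.comp contDiff_fst).contDiffAt
    have hz : ContDiffAt ℝ ∞ (fun p : (ℝ × ℝ) × (ℂ × Q) => p.2.1) (t, x) :=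
      (contDiff_fst.comp contDiff_snd).contDiffAt
    have hy : ContDiffAt ℝ ∞ (fun p : (ℝ × ℝ) × (ℂ × Q) => p.2.2) (t, x) :=
      (contDiff_snd.comp contDiff_snd).contDiffAt
    have hb : |t.2 * χ x| < 1 := by
      rw [abs_mul, abs_of_nonneg (h.nonneg x)]
      exact lt_of_le_of_lt (mul_le_of_le_one_right (abs_nonneg _) (h.le_one x)) ht
    have hc : ContDiffAt ℝ ∞ (fun p : (ℝ × ℝ) × (ℂ × Q) =>
        ctau (p.1.1 * χ p.2) (p.1.2 * χ p.2) p.2.1) (t, x) :=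
      A4_contDiffAt_ctau (ht1.mul hχ) (ht2.mul hχ) hz hx0 hb
    exact (A4_contDiffAt_crot hc hz).prodMk hy

end Pool.Agent.SC
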