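import Pool.Agent.Lib.MP_1e8d1a_an.LC.A3
import Pool.Agent.Lib.MP_1e8d1a_an.SC.MobB

/-! row lc-A5 -/

open scoped ContDiff Manifold Topology

namespace Pool.Agent.SC

/-- rescaling numerator and denominator of the displacement -/
theorem A5_tau_rescale (s b : ℝ) {c : ℝ} (hc : 0 < c) (w : Circle) :
    tau 1 (s / c) (b / c) w = tau c s b w := by
  unfold tau
  congr 2
  have h1 : s / c + b / c * (w : ℂ).re = (s + b * (w : ℂ).re) / c := by ring
  have h2 : 1 + b / c * (w : ℂ).im = (c + b * (w : ℂ).im) / c := by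
    field_simp
  rw [h1, h2, div_div_div_cancel_right₀ hc.ne']

/-- one step of the iteration -/
theorem A5_step {Q : Type} [NormedAddCommGroup Q] [NormedSpace ℝ Q] {ρ : ℝ}
    {χ : ℂ × Q → ℝ} (h : LCCut ρ χ) {lam s b om : ℝ} (hlam : 0 < lam) (hom0 : 0 < om)
    (hom1 : om < Real.pi / 2) (h1 : s + b = lam * Real.sin om)
    (h2 : (s - b) * lam = Real.sin om) (hb : |b| < Real.cos om) (t : ℝ) :
    dmob χ (s / Real.cos om, b / Real.cos om) ((ρ : ℂ) * (pt lam t : ℂ), (0 : Q)) =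
      ((ρ : ℂ) * (pt lam (t + om) : ℂ), 0) := by
  have hρ := h.pos
  have hc : 0 < Real.cos om := lt_of_le_of_lt (abs_nonneg b) hb
  have hn : ‖(ρ : ℂ) * (pt lam t : ℂ)‖ = ρ := by
    rw [norm_mul, Circle.norm_coe, mul_one, Complex.norm_real, Real.norm_eq_abs, abs_of_pos hρ]
  have hχ : χ ((ρ : ℂ) * (pt lam t : ℂ), (0 : Q)) = 1 := h.one _ hn
  have hm := mob_pt hlam hom0 hom1 h1 h2 hb t
  have hm' : (mob (Real.cos om) s b (pt lam t) : ℂ) = (pt lam (t + om) : ℂ) := by rw [hm]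
  unfold dmob
  simp only [hχ, mul_one]
  rw [ctau_mul_circle _ _ ρ hρ, A5_tau_rescale s b hc, ← hm']
  unfold crot mob
  rw [Circle.coe_mul, Circle.coe_exp]
  refine Prod.ext ?_ rfl
  simp only
  ring

/-- Iterates of `dmob` on the circle `‖z‖ = ρ`, `y = 0`.
PROOF.  Induction on `i`; `i = 0`: `pt lam 0 = 1` (`pt_nat_mul_pi` with `k = 0`, `SC/PhiA.lean`).
Step: at `x = (ρ * pt lam (i om), 0)` one has `χ x = 1` (`LCCut.one`, `Circle.norm_coe`), and
by `ctau_mul_circle` the displacement is `tau 1 (s / cos om) (b / cos om) w`, `w = pt lam (i om)`,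
which equals `tau (cos om) s b w` (multiply numerator and denominator by `cos om > 0`).  So
`crot _ (ρ * w) = ρ * mob (cos om) s b w = ρ * pt lam (i om + om)` by `mob_pt` (`SC/MobB.lean`). -/
theorem dmob_iter {Q : Type} [NormedAddCommGroup Q] [NormedSpace ℝ Q] {ρ : ℝ}
    {χ : ℂ × Q → ℝ} (h : LCCut ρ χ) {lam s b om : ℝ} (hlam : 0 < lam) (hom0 : 0 < om)
    (hom1 : om < Real.pi / 2) (h1 : s + b = lam * Real.sin om)
    (h2 : (s - b) * lam = Real.sin om) (hb : |b| < Real.cos om) (i : ℕ) :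
    (dmob χ (s / Real.cos om, b / Real.cos om))^[i] ((ρ : ℂ), (0 : Q)) =
      ((ρ : ℂ) * (pt lam (i * om) : ℂ), 0) := by
  induction i with
  | zero =>
    have h0 : pt lam (((0 : ℕ) : ℝ) * om) = 1 := by
      have := pt_nat_mul_pi lam 0
      simpa using this
    rw [h0, Function.iterate_zero, id_eq, Circle.coe_one, mul_one]
  | succ i ih =>
    rw [Function.iterate_succ_apply', ih, A5_step h hlam hom0 hom1 h1 h2 hb]
    have : (i : ℝ) * om + om = ((i + 1 : ℕ) : ℝ) * om := by push_cast; ring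
    rw [this]

end Pool.Agent.SC
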