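import Pool.Agent.Lib.MP_1e8d1a_an.LC.Defs

/-! row lc-A5b -/

open scoped ContDiff Manifold Topology

namespace Pool.Agent.SC

/-- The parameters.
PROOF.  `om = π / m → 0` as `m → ∞`; `sin om → 0`, `cos om → 1`, `sqrt (s ^ 2 - sin om ^ 2) → s`
(`s > 0`), so `(s / cos om, sqrt (s ^ 2 - sin om ^ 2) / cos om) → (s, s)`; all conditions hold for
large `m` (filter argument `Filter.Tendsto`, `Filter.eventually_atTop`).  `|b / cos om| < 1` and the
existence of `lam` come from `params` (`SC/MobC.lean`). -/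
theorem clock_params (s : ℝ) (hs : 0 < s) (hs1 : s ≤ 1 / 2) (ε : ℝ) (hε : 0 < ε) :
    ∃ N : ℕ, ∀ m : ℕ, N ≤ m → 2 ≤ m ∧ ∃ lam om b : ℝ, om = Real.pi / m ∧ 0 < lam ∧ 0 < om ∧
      om < Real.pi / 2 ∧ s + b = lam * Real.sin om ∧ (s - b) * lam = Real.sin om ∧
      |b| < Real.cos om ∧ s ≤ lam * Real.sin om ∧
      ‖((s / Real.cos om, b / Real.cos om) : ℝ × ℝ) - (s, s)‖ < ε ∧
      |b / Real.cos om| < 1 := by
  have hlim : Filter.Tendsto (fun m : ℕ => Real.pi / (m : ℝ)) Filter.atTop (𝓝 0) :=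
    tendsto_const_div_atTop_nhds_zero_nat Real.pi
  have hcF : ContinuousAt (fun om : ℝ => ((s / Real.cos om,
      Real.sqrt (s ^ 2 - Real.sin om ^ 2) / Real.cos om) : ℝ × ℝ)) 0 := by
    have hc : Real.cos 0 ≠ 0 := by
      rw [Real.cos_zero]
      exact one_ne_zero
    refine ContinuousAt.prodMk ?_ ?_
    · exact continuousAt_const.div Real.continuous_cos.continuousAt hc
    · refine ContinuousAt.div ?_ Real.continuous_cos.continuousAt hc
      exact (Real.continuous_sqrt.comp (continuous_const.sub (Real.continuous_sin.pow 2))).continuousAt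
  have h1 := hcF.tendsto.comp hlim
  have e0 : ((s / Real.cos 0, Real.sqrt (s ^ 2 - Real.sin 0 ^ 2) / Real.cos 0) : ℝ × ℝ) = (s, s) := by
    rw [Real.cos_zero, Real.sin_zero, div_one, div_one]
    have : s ^ 2 - 0 ^ 2 = s ^ 2 := by ring
    rw [this, Real.sqrt_sq hs.le]
  rw [e0] at h1
  have ev1 := (Metric.tendsto_nhds.1 h1) ε hε
  have h2 : Filter.Tendsto (fun m : ℕ => Real.sin (Real.pi / (m : ℝ))) Filter.atTop (𝓝 0) := by
    have := (Real.continuous_sin.continuousAt (x := 0)).tendsto.comp hlim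
    rw [Real.sin_zero] at this
    exact this
  have ev2 := h2.eventually (gt_mem_nhds hs)
  have ev3 : ∀ᶠ m : ℕ in Filter.atTop, 3 ≤ m := Filter.eventually_ge_atTop 3
  obtain ⟨N, hN⟩ := Filter.eventually_atTop.1 (ev1.and (ev2.and ev3))
  refine ⟨N, fun m hm => ?_⟩
  obtain ⟨a1, a2, a3⟩ := hN m hm
  have hm3 : (3 : ℝ) ≤ m := by exact_mod_cast a3
  have hpi := Real.pi_pos
  have hom0 : 0 < Real.pi / (m : ℝ) := div_pos hpi (by linarith)
  have hom1 : Real.pi / (m : ℝ) < Real.pi / 2 := by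
    apply div_lt_div_of_pos_left hpi (by norm_num)
    linarith
  obtain ⟨p1, p2, lam, p3, p4, p5, p6⟩ := params hs hs1 hom0 hom1 a2
  have hcos : 0 < Real.cos (Real.pi / (m : ℝ)) :=
    Real.cos_pos_of_mem_Ioo ⟨by linarith, hom1⟩
  refine ⟨by omega, lam, Real.pi / m, Real.sqrt (s ^ 2 - Real.sin (Real.pi / m) ^ 2), rfl, p3, hom0,
    hom1, p4, p5, p2, p6, ?_, ?_⟩
  · rw [← dist_eq_norm]
    exact a1
  · rw [abs_div, abs_of_pos hcos, div_lt_one hcos]
    exact p2

end Pool.Agent.SC
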