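import Pool.Agent.Lib.MP_1e8d1a_an.LC.A5
import Pool.Agent.Lib.MP_1e8d1a_an.LC.A5b

/-! row lc-A6 -/

open scoped ContDiff Manifold Topology

namespace Pool.Agent.SC

/-- PROOF.  `clock_params`; `t = (s / cos om, b / cos om)`; `dmob_iter` with `i = m`:
`m * om = π`, `pt lam π = 1` (`pt_nat_mul_pi` with `k = 1`).  For `0 < i < m`: `dmob_iter`, and
`pt_sep` (`SC/PhiB.lean`) with `k = 1`, `n = m`, `j = i`: `‖pt lam (i om) - 1‖ ≥ s / 1 = s`. -/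
theorem dmob_clock {Q : Type} [NormedAddCommGroup Q] [NormedSpace ℝ Q] {ρ : ℝ}
    {χ : ℂ × Q → ℝ} (h : LCCut ρ χ) (s : ℝ) (hs : 0 < s) (hs1 : s ≤ 1 / 2) (ε : ℝ)
    (hε : 0 < ε) : ∃ N : ℕ, ∀ m : ℕ, N ≤ m → ∃ t : ℝ × ℝ, ‖t - (s, s)‖ < ε ∧ |t.2| < 1 ∧
      (dmob χ t)^[m] ((ρ : ℂ), (0 : Q)) = ((ρ : ℂ), 0) ∧
      ∀ i, 0 < i → i < m → ρ * s ≤ ‖((dmob χ t)^[i] ((ρ : ℂ), (0 : Q))).1 - ρ‖ := by
  obtain ⟨N, hN⟩ := clock_params s hs hs1 ε hε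
  refine ⟨N, fun m hm => ?_⟩
  obtain ⟨hm2, lam, om, b, hom, hlam, hom0, hom1, h1, h2, hb, hsl, hn, hb1⟩ := hN m hm
  have hm0 : (0 : ℝ) < m := by exact_mod_cast (by omega : 0 < m)
  have hmom : om * m = Real.pi * (1 : ℕ) := by
    rw [hom, Nat.cast_one, mul_one, div_mul_cancel₀ _ hm0.ne']
  refine ⟨(s / Real.cos om, b / Real.cos om), hn, hb1, ?_, ?_⟩
  · rw [dmob_iter h hlam hom0 hom1 h1 h2 hb m]
    have e1 : (m : ℝ) * om = (1 : ℕ) * Real.pi := by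
      rw [mul_comm, hmom, mul_comm]
    have e2 : pt lam ((m : ℝ) * om) = 1 := by
      rw [e1]
      exact pt_nat_mul_pi lam 1
    rw [e2, Circle.coe_one, mul_one]
  · intro i hi0 him
    rw [dmob_iter h hlam hom0 hom1 h1 h2 hb i]
    have hsep := pt_sep (lam := lam) (s := s) (om := om) (k := 1) (n := m) (j := i) one_pos (by omega)
      hmom hom1 hs (by linarith) hsl (by
        rw [mul_one]
        intro hd
        have := Nat.le_of_dvd hi0 hd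
        omega)
    rw [Nat.cast_one, div_one] at hsep
    have e : (ρ : ℂ) * (pt lam (i * om) : ℂ) - ρ = ρ * ((pt lam (i * om) : ℂ) - 1) := by ring
    change ρ * s ≤ ‖(ρ : ℂ) * (pt lam (i * om) : ℂ) - ρ‖
    rw [e, norm_mul, Complex.norm_real, Real.norm_of_nonneg h.pos.le]
    exact mul_le_mul_of_nonneg_left hsep h.pos.le

end Pool.Agent.SC
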