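import Pool.Agent.Lib.MP_1e8d1a_an.LC.Defs

/-! row lc-A7 -/

open scoped ContDiff Manifold Topology

namespace Pool.Agent.SC

/-- PROOF.  Let `R = min (ρ ^ 2 / 2) ρ` and `β` a `ContDiffBump` of `ℝ × Q` centred at `(ρ ^ 2, 0)` with
`rIn = R / 2`, `rOut = R`; `χ (z, y) = β (‖z‖ ^ 2, y)`.  `z ↦ ‖z‖ ^ 2` is smooth
(`contDiff_norm_sq`).  `χ = 0` when `dist (‖z‖ ^ 2, y) (ρ ^ 2, 0) ≥ R` (`ContDiffBump.zero_of_le_dist`):
for `‖z‖ ≤ ρ / 2`: `ρ ^ 2 - ‖z‖ ^ 2 ≥ 3 ρ ^ 2 / 4 ≥ R`; for `‖(z, y)‖ ≥ 2 ρ`: either `‖z‖ ≥ 2 ρ`,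
`‖z‖ ^ 2 - ρ ^ 2 ≥ 3 ρ ^ 2 ≥ R`, or `‖y‖ ≥ 2 ρ ≥ R`.  `χ = 1` at the centre. -/
theorem exists_lcCut (Q : Type) [NormedAddCommGroup Q] [NormedSpace ℝ Q] [FiniteDimensional ℝ Q]
    (ρ : ℝ) (hρ : 0 < ρ) : ∃ χ : ℂ × Q → ℝ, LCCut ρ χ := by
  have hR0 : 0 < min (ρ ^ 2 / 2) ρ := lt_min (by positivity) hρ
  have hR1 : min (ρ ^ 2 / 2) ρ ≤ ρ ^ 2 / 2 := min_le_left _ _
  have hR2 : min (ρ ^ 2 / 2) ρ ≤ ρ := min_le_right _ _
  generalize min (ρ ^ 2 / 2) ρ = R at hR0 hR1 hR2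
  let β : ContDiffBump ((ρ ^ 2, 0) : ℝ × Q) :=
    { rIn := R / 2, rOut := R, rIn_pos := half_pos hR0, rIn_lt_rOut := half_lt_self hR0 }
  have hβ : β.rOut = R := rfl
  have h1 : ∀ (z : ℂ) (y : Q), R ≤ |‖z‖ ^ 2 - ρ ^ 2| → β (‖z‖ ^ 2, y) = 0 := by
    intro z y h
    refine β.zero_of_le_dist ?_
    rw [hβ, Prod.dist_eq]
    exact le_trans h (le_max_of_le_left (by rw [Real.dist_eq]))
  have h2 : ∀ (z : ℂ) (y : Q), R ≤ ‖y‖ → β (‖z‖ ^ 2, y) = 0 := by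
    intro z y h
    refine β.zero_of_le_dist ?_
    rw [hβ, Prod.dist_eq]
    exact le_trans h (le_max_of_le_right (by simp))
  have h3 : 0 < ρ ^ 2 := by positivity
  refine ⟨fun x => β (‖x.1‖ ^ 2, x.2), ?_⟩
  refine { pos := hρ, smooth := ?_, nonneg := fun x => β.nonneg, le_one := fun x => β.le_one,
           inv := ?_, zero := ?_, one := ?_, supp := ?_ }
  · exact β.contDiff.comp (((contDiff_norm_sq ℝ).comp contDiff_fst).prodMk contDiff_snd)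
  · intro z z' y h
    simp only [h]
  · intro z y h
    refine h1 z y ?_
    have h4 : ‖z‖ ^ 2 ≤ (ρ / 2) ^ 2 := pow_le_pow_left₀ (norm_nonneg z) h 2
    have h5 : ‖z‖ ^ 2 - ρ ^ 2 ≤ 0 := by nlinarith
    rw [abs_of_nonpos h5]
    nlinarith
  · intro z h
    simp only [h]
    exact β.one_of_mem_closedBall (Metric.mem_closedBall_self (half_pos hR0).le)
  · intro x h
    rw [Prod.norm_def] at h
    rcases le_max_iff.1 h with h4 | h4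
    · refine h1 x.1 x.2 ?_
      have h5 : (2 * ρ) ^ 2 ≤ ‖x.1‖ ^ 2 := pow_le_pow_left₀ (by positivity) h4 2
      have h6 : 0 ≤ ‖x.1‖ ^ 2 - ρ ^ 2 := by nlinarith
      rw [abs_of_nonneg h6]
      nlinarith
    · exact h2 x.1 x.2 (by linarith)

end Pool.Agent.SC
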