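import Pool.Agent.Lib.MP_1e8d1a_an.LC.A4
import Pool.Agent.Lib.MP_1e8d1a_an.LC.A6
import Pool.Agent.Lib.MP_1e8d1a_an.LC.A7

/-! row lc-A8 -/

open scoped ContDiff Manifold Topology

namespace Pool.Agent.SC

/-- PROOF.  Let `Q = Fin (finrank E - 2) → ℝ`, `finrank (ℂ × Q) = finrank E`, so there is
`L : E ≃L[ℝ] ℂ × Q` (`ContinuousLinearEquiv.ofFinrankEq`).  There is `c > 0` with
`c * ‖y‖ ≤ ‖L y‖` for all `y` (`c = 1 / (‖L.symm‖ + 1)`).  Let `ρ = c * δ / 3`, `χ` from
`exists_lcCut`, `p = (ρ, 0)`, `S (t, y) = L.symm (dmob χ t (L y + p) - p)`.  Support: if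
`δ ≤ ‖y‖` then `‖L y + p‖ ≥ c δ - ρ = 2 ρ`, so `χ = 0` there (`dmob_of_eq_zero`).  Smoothness:
`contDiffAt_dmob` composed with continuous affine maps.  Inverse: `dmob_neg`.  Iterates:
`(S (t, ·))^[i] y = L.symm ((dmob χ t)^[i] (L y + p) - p)` by induction.  Clock: `dmob_clock`,
`J = {y | ‖(L y).1‖ < ρ * s}`. -/
theorem exists_modelClock (E : Type) [NormedAddCommGroup E] [NormedSpace ℝ E]
    [FiniteDimensional ℝ E] (hE : 2 ≤ Module.finrank ℝ E) (δ : ℝ) (hδ : 0 < δ) :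
    ∃ S : (ℝ × ℝ) × E → E, ModelClock δ S := by
  let Q : Type := Fin (Module.finrank ℝ E - 2) → ℝ
  have hfr : Module.finrank ℝ E = Module.finrank ℝ (ℂ × Q) := by
    have h1 : Module.finrank ℝ (ℂ × Q) = Module.finrank ℝ ℂ + Module.finrank ℝ Q :=
      Module.finrank_prod
    have h2 : Module.finrank ℝ ℂ = 2 := Complex.finrank_real_complex
    have h3 : Module.finrank ℝ Q = Module.finrank ℝ E - 2 := Module.finrank_fin_fun ℝ
    rw [h1, h2, h3]
    omega
  let L : E ≃L[ℝ] ℂ × Q := ContinuousLinearEquiv.ofFinrankEq hfr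
  set n : ℝ := ‖(L.symm : (ℂ × Q) →L[ℝ] E)‖ + 1 with hn
  have hn0 : 0 < n := by
    have := norm_nonneg (L.symm : (ℂ × Q) →L[ℝ] E)
    linarith
  have hLn : ∀ y : E, ‖y‖ ≤ n * ‖L y‖ := by
    intro y
    have h1 : ‖(L.symm : (ℂ × Q) →L[ℝ] E) (L y)‖ ≤ ‖(L.symm : (ℂ × Q) →L[ℝ] E)‖ * ‖L y‖ :=
      ContinuousLinearMap.le_opNorm _ _
    have h2 : (L.symm : (ℂ × Q) →L[ℝ] E) (L y) = y := L.symm_apply_apply y
    rw [h2] at h1
    have h3 := norm_nonneg (L y)
    rw [hn]
    nlinarith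
  set ρ : ℝ := δ / (3 * n) with hρd
  have hρ : 0 < ρ := by positivity
  have hδρ : δ = n * (3 * ρ) := by
    rw [hρd]
    field_simp
  obtain ⟨χ, hχ⟩ := exists_lcCut Q ρ hρ
  let p : ℂ × Q := ((ρ : ℂ), 0)
  have hp : ‖p‖ = ρ := by
    show ‖((ρ : ℂ), (0 : Q))‖ = ρ
    rw [Prod.norm_mk, norm_zero, Complex.norm_real, Real.norm_eq_abs, abs_of_pos hρ]
    exact max_eq_left hρ.le
  have hit : ∀ (t : ℝ × ℝ) (i : ℕ) (y : E),
      (fun y => L.symm (dmob χ t (L y + p) - p))^[i] y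
        = L.symm ((dmob χ t)^[i] (L y + p) - p) := by
    intro t i y
    induction i with
    | zero =>
      show y = L.symm (L y + p - p)
      rw [add_sub_cancel_right, L.symm_apply_apply]
    | succ i ih =>
      rw [Function.iterate_succ_apply', Function.iterate_succ_apply', ih]
      show L.symm (dmob χ t (L (L.symm ((dmob χ t)^[i] (L y + p) - p)) + p) - p) = _
      rw [L.apply_symm_apply, sub_add_cancel]
  refine ⟨fun q => L.symm (dmob χ q.1 (L q.2 + p) - p), ⟨?_, ?_, ?_, ?_, ?_⟩⟩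
  · intro t y ht
    have h1 : ContDiffAt ℝ ∞ (fun q : (ℝ × ℝ) × E => (q.1, L q.2 + p)) (t, y) := by
      apply ContDiffAt.prodMk
      · exact contDiffAt_fst
      · exact ((L.contDiff.comp contDiff_snd).contDiffAt).add contDiffAt_const
    have h2 : ContDiffAt ℝ ∞ (fun p : (ℝ × ℝ) × (ℂ × Q) => dmob χ p.1 p.2)
        ((fun q : (ℝ × ℝ) × E => (q.1, L q.2 + p)) (t, y)) :=
      contDiffAt_dmob hχ t ht (L y + p)
    have h3 := h2.comp (t, y) h1
    have h4 := h3.sub (contDiffAt_const (c := p))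
    exact L.symm.contDiff.contDiffAt.comp (t, y) h4
  · intro t y ht
    show L.symm (dmob χ (-t) (L (L.symm (dmob χ t (L y + p) - p)) + p) - p) = y
    rw [L.apply_symm_apply, sub_add_cancel, dmob_neg hχ t ht, add_sub_cancel_right,
      L.symm_apply_apply]
  · intro y
    show L.symm (dmob χ 0 (L y + p) - p) = y
    rw [dmob_zero, add_sub_cancel_right, L.symm_apply_apply]
  · intro t y hy
    show L.symm (dmob χ t (L y + p) - p) = y
    have h1 : χ (L y + p) = 0 := by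
      apply hχ.supp
      have h2 := hLn y
      have h3 : 3 * ρ ≤ ‖L y‖ := by
        have h4 : n * (3 * ρ) ≤ n * ‖L y‖ := by
          rw [← hδρ]
          exact hy.trans h2
        exact le_of_mul_le_mul_left h4 hn0
      have h5 : ‖L y‖ ≤ ‖L y + p‖ + ‖p‖ := by
        have h6 := norm_sub_le (L y + p) p
        rwa [add_sub_cancel_right] at h6
      rw [hp] at h5
      linarith
    rw [dmob_of_eq_zero χ t _ h1, add_sub_cancel_right, L.symm_apply_apply]
  · intro s hs hs1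
    refine ⟨{y | ‖(L y).1‖ < ρ * s}, ?_, ?_⟩
    · apply IsOpen.mem_nhds
      · exact isOpen_lt (continuous_norm.comp (continuous_fst.comp L.continuous)) continuous_const
      · show ‖(L 0).1‖ < ρ * s
        rw [map_zero]
        show ‖(0 : ℂ)‖ < ρ * s
        rw [norm_zero]
        positivity
    · intro ε hε
      obtain ⟨N, hN⟩ := dmob_clock hχ s hs hs1 ε hε
      refine ⟨N, fun m hm => ?_⟩
      obtain ⟨t, ht1, ht2, ht3, ht4⟩ := hN m hm
      refine ⟨t, ht1, ht2, ?_, ?_⟩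
      · show (fun y => L.symm (dmob χ t (L y + p) - p))^[m] 0 = 0
        rw [hit, map_zero, zero_add]
        show L.symm ((dmob χ t)^[m] ((ρ : ℂ), (0 : Q)) - ((ρ : ℂ), (0 : Q))) = 0
        rw [ht3, sub_self, map_zero]
      · intro i hi0 him hmem
        have h1 : ‖(L ((fun y => L.symm (dmob χ t (L y + p) - p))^[i] 0)).1‖ < ρ * s := hmem
        rw [hit, map_zero, zero_add, L.apply_symm_apply] at h1
        have h2 := ht4 i hi0 him
        have h3 : ((dmob χ t)^[i] p - p).1 = ((dmob χ t)^[i] ((ρ : ℂ), (0 : Q))).1 - ρ := rfl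
        rw [h3] at h1
        linarith

end Pool.Agent.SC
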