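import Pool.Agent.Lib.MP_1e8d1a_an.LC.A8
import Pool.Agent.Lib.MP_1e8d1a_an.LC.B1

/-! row lc-B3 -/

open scoped ContDiff Manifold Topology

namespace Pool.Agent.SC

variable {E : Type} [NormedAddCommGroup E] [NormedSpace ℝ E] {H : Type} [TopologicalSpace H]
  {I : ModelWithCorners ℝ E H} {W : Type} [TopologicalSpace W] [ChartedSpace H W]

/-- A model clock preserves the ball of radius `δ`.
PROOF.  If `‖y‖ < δ` and `δ ≤ ‖S (t, y)‖` then `y = S (-t, S (t, y)) = S (t, y)` by `inv` and
`supp`, a contradiction. -/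
theorem ModelClock.ball {δ : ℝ} {S : (ℝ × ℝ) × E → E} (h : ModelClock δ S) (t : ℝ × ℝ)
    (ht : |t.2| < 1) (y : E) (hy : ‖y‖ < δ) : ‖S (t, y)‖ < δ := by
  by_contra hcon
  push Not at hcon
  have h1 := h.inv t y ht
  rw [h.supp (-t) _ hcon] at h1
  rw [h1] at hcon
  linarith

/-- PROOF.  Let `e = extChartAt I w`.  Choose `δ > 0` with `closedBall (e w) δ ⊆ e.target ∩ e.symm ⁻¹' V`
(as in `exists_translations`, `SC/Trans2.lean`), `S₀` from `exists_modelClock E hE δ`,
`S (t, q) = trans2_tr I w (fun y => S₀ (t, y)) q`.  Smooth: `lc_tr_smooth` (`|v.2| < 1` for `v` near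
`t`, `ModelClock.ball`).  Inverse: `trans2_inv`.  `zero`: unfold, `e.left_inv`.  `supp`:
`trans2_eq_self` (a point of `e.symm '' closedBall (e w) δ` lies in `V`).  Iterates: for
`|t.2| < 1`, `(S (t, ·))^[i] w = e.symm (e w + (S₀ (t, ·))^[i] 0)` and `‖(S₀ (t, ·))^[i] 0‖ < δ` by
induction.  Clock: `J₀` from `S₀.clock s`, `U₀ = {q ∈ e.source | e q - e w ∈ J₀}`, a neighbourhood
of `w` by continuity of `e` at `w`. -/
theorem exists_manClock [FiniteDimensional ℝ E] (hE : 2 ≤ Module.finrank ℝ E) [T2Space W]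
    [IsManifold I ∞ W] [I.Boundaryless] (w : W) (V : Set W) (hV : V ∈ 𝓝 w) :
    ∃ S : (ℝ × ℝ) × W → W, ManClock I w V S := by
  have hnb : (extChartAt I w).target ∩ (extChartAt I w).symm ⁻¹' V ∈ 𝓝 (extChartAt I w w) :=
    Filter.inter_mem (extChartAt_target_mem_nhds w) (extChartAt_preimage_mem_nhds hV)
  obtain ⟨δ, hδ, hsub⟩ := Metric.nhds_basis_closedBall.mem_iff.1 hnb
  have hball : Metric.closedBall (extChartAt I w w) δ ⊆ (extChartAt I w).target :=
    hsub.trans Set.inter_subset_left
  obtain ⟨S, hS⟩ := exists_modelClock E hE δ hδ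
  have hS1 : ∀ v y, δ ≤ ‖y‖ → S (v, y) = y := fun v y hy => hS.supp v y hy
  have hneg : ∀ t : ℝ × ℝ, |t.2| < 1 → |(-t).2| < 1 := fun t ht => by
    rwa [Prod.snd_neg, abs_neg]
  -- iterates
  have hit : ∀ t : ℝ × ℝ, |t.2| < 1 → ∀ i : ℕ,
      (fun q => trans2_tr I w (fun y => S (t, y)) q)^[i] w =
        (extChartAt I w).symm (extChartAt I w w + (fun y => S (t, y))^[i] 0) ∧
      ‖(fun y => S (t, y))^[i] (0 : E)‖ < δ := by
    intro t ht i
    induction i with
    | zero =>
      refine ⟨?_, ?_⟩
      · simp only [Function.iterate_zero, id, add_zero]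
        exact ((extChartAt I w).left_inv (mem_extChartAt_source w)).symm
      · simpa using hδ
    | succ i ih =>
      obtain ⟨ih1, ih2⟩ := ih
      rw [Function.iterate_succ_apply', Function.iterate_succ_apply', ih1]
      have hz : extChartAt I w w + (fun y => S (t, y))^[i] 0 ∈ (extChartAt I w).target := by
        apply hball
        rw [Metric.mem_closedBall, dist_eq_norm, add_sub_cancel_left]
        exact ih2.le
      refine ⟨?_, hS.ball t ht _ ih2⟩
      rw [trans2_tr_of_mem w _ _ ((extChartAt I w).map_target hz),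
        (extChartAt I w).right_inv hz, add_sub_cancel_left]
  refine ⟨fun x => trans2_tr I w (fun y => S (x.1, y)) x.2, ?_, ?_, ?_, ?_, ?_⟩
  · intro t q ht
    refine lc_tr_smooth w δ hball S t (fun y => hS.smooth t y ht) hS1 ?_ q
    have h1 : ∀ᶠ v : ℝ × ℝ in 𝓝 t, |v.2| < 1 :=
      (continuous_snd.abs).continuousAt.eventually_lt_const ht
    exact h1.mono fun v hv y hy => hS.ball v hv y hy
  · intro t q ht
    exact trans2_inv w δ hball (fun y => S (t, y)) (fun y => S (-t, y)) (hS1 t)
      (fun y hy => hS.ball t ht y hy) (fun y => hS.inv t y ht) q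
  · intro q
    show trans2_tr I w (fun y => S (0, y)) q = q
    by_cases h : q ∈ (extChartAt I w).source
    · rw [trans2_tr_of_mem w _ q h, hS.zero, add_sub_cancel]
      exact (extChartAt I w).left_inv h
    · exact trans2_tr_of_not_mem w _ q h
  · intro t q hq
    apply trans2_eq_self w δ _ (hS1 t) q
    rintro ⟨z, hz, hz2⟩
    apply hq
    rw [← hz2]
    exact (hsub hz).2
  · intro s hs hs2
    obtain ⟨J, hJ, hJ2⟩ := hS.clock s hs hs2
    refine ⟨{q | extChartAt I w q - extChartAt I w w ∈ J}, ?_, ?_⟩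
    · have h1 : ContinuousAt (fun q => extChartAt I w q - extChartAt I w w) w :=
        (continuousAt_extChartAt (I := I) w).sub continuousAt_const
      apply h1
      simp only [sub_self]
      exact hJ
    · intro ε hε
      obtain ⟨N₀, hN₀⟩ := hJ2 ε hε
      refine ⟨N₀, fun m hm => ?_⟩
      obtain ⟨t, ht1, ht2, ht3, ht4⟩ := hN₀ m hm
      refine ⟨t, ht1, ht2, ?_, ?_⟩
      · have h1 := (hit t ht2 m).1
        rw [ht3, add_zero, (extChartAt I w).left_inv (mem_extChartAt_source w)] at h1
        exact h1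
      · intro i hi him hcon
        apply ht4 i hi him
        have h1 := hit t ht2 i
        have hz : extChartAt I w w + (fun y => S (t, y))^[i] 0 ∈ (extChartAt I w).target := by
          apply hball
          rw [Metric.mem_closedBall, dist_eq_norm, add_sub_cancel_left]
          exact h1.2.le
        have h2 : extChartAt I w ((fun q => trans2_tr I w (fun y => S (t, y)) q)^[i] w) -
            extChartAt I w w ∈ J := hcon
        rw [h1.1, (extChartAt I w).right_inv hz, add_sub_cancel_left] at h2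
        exact h2

end Pool.Agent.SC
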