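import Pool.Agent.Lib.MP_1e8d1a_an.LC.Defs
import Pool.Agent.Lib.MP_1e8d1a_an.IR.Defs

/-! row lc-C1 -/

open scoped ContDiff Manifold Topology

namespace Pool.Agent.SC

/-- PROOF.  Induction on `i < q`: `(g ∘ h) z = g (h z)`; for `0 < i < q` the point `g^[i] (h z)` is
outside `V` (`h z ∈ V`, `FreePeriodic`), so `h` fixes it. -/
theorem free_step {N : Type} [TopologicalSpace N] {g h : N → N} {w : N} {q : ℕ} {V : Set N}
    (hf : FreePeriodic g w q V) (hh : ∀ z, z ∉ V → h z = z) (hV : ∀ z ∈ V, h z ∈ V) (i : ℕ)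
    (hi0 : 0 < i) (hi : i ≤ q) (z : N) (hz : z ∈ V) : (g ∘ h)^[i] z = g^[i] (h z) := by
  obtain ⟨-, -, -, -, hfree⟩ := hf
  induction i with
  | zero => exact absurd hi0 (lt_irrefl 0)
  | succ k ih =>
    rcases Nat.eq_zero_or_pos k with hk | hk
    · subst hk
      simp
    · rw [Function.iterate_succ_apply', ih hk (by omega), Function.iterate_succ_apply',
        Function.comp_apply, hh _ (hfree k hk (by omega) (h z) (hV z hz))]

/-- the iterates of `h` preserve `V` -/
theorem C1_mem {N : Type} {h : N → N} {V : Set N} (hV : ∀ z ∈ V, h z ∈ V) (j : ℕ) (z : N)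
    (hz : z ∈ V) : h^[j] z ∈ V := by
  induction j with
  | zero => exact hz
  | succ k ih =>
    rw [Function.iterate_succ_apply']
    exact hV _ ih

/-- PROOF.  By `free_step` with `i = q` and `g^[q] (h z) = h z` (`h z ∈ V`):
`(g ∘ h)^[q] z = h z` for `z ∈ V`; iterate `j` times (`Function.iterate_mul`, induction on `j`,
`h^[j] z ∈ V`). -/
theorem free_iterate {N : Type} [TopologicalSpace N] {g h : N → N} {w : N} {q : ℕ} {V : Set N}
    (hf : FreePeriodic g w q V) (hh : ∀ z, z ∉ V → h z = z) (hV : ∀ z ∈ V, h z ∈ V) (j : ℕ)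
    (z : N) (hz : z ∈ V) : (g ∘ h)^[q * j] z = h^[j] z := by
  induction j generalizing z with
  | zero => simp
  | succ k ih =>
    rw [Nat.mul_succ, Function.iterate_add_apply,
      free_step hf hh hV q hf.1 (le_refl q) z hz, hf.2.2.2.1 (h z) (hV z hz),
      ih (h z) (hV z hz), Function.iterate_succ_apply]

/-- PROOF.  Write `i = q * j + i'`, `i' < q`.  If `i' = 0` use `free_iterate` and the hypothesis
`hj` (`0 < j < m`).  If `i' > 0`: `(g ∘ h)^[i] w = (g ∘ h)^[i'] (h^[j] w) = g^[i'] (h^[j+1] w)` is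
not in `V`. -/
theorem free_intermediate {N : Type} [TopologicalSpace N] {g h : N → N} {w : N} {q : ℕ}
    {V U₀ : Set N} (hf : FreePeriodic g w q V) (hh : ∀ z, z ∉ V → h z = z)
    (hV : ∀ z ∈ V, h z ∈ V) (m : ℕ) (hj : ∀ j, 0 < j → j < m → h^[j] w ∉ U₀) (i : ℕ) (hi0 : 0 < i)
    (hi : i < q * m) : (g ∘ h)^[i] w ∉ V ∩ U₀ := by
  have hq : 0 < q := hf.1
  have hw : w ∈ V := hf.2.2.1
  have hsplit : i = i % q + q * (i / q) := (Nat.mod_add_div i q).symm
  have hlt : i / q < m := Nat.div_lt_of_lt_mul hi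
  have hmod : i % q < q := Nat.mod_lt i hq
  have hmem : h^[i / q] w ∈ V := C1_mem hV _ w hw
  have hval : (g ∘ h)^[i] w = (g ∘ h)^[i % q] (h^[i / q] w) := by
    conv_lhs => rw [hsplit]
    rw [Function.iterate_add_apply, free_iterate hf hh hV (i / q) w hw]
  intro hcon
  rw [hval] at hcon
  rcases Nat.eq_zero_or_pos (i % q) with h0 | h0
  · rw [h0] at hcon
    have hpos : 0 < i / q := by
      rcases Nat.eq_zero_or_pos (i / q) with h1 | h1
      · rw [h0, h1] at hsplit
        omega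
      · exact h1
    exact hj (i / q) hpos hlt hcon.2
  · rw [free_step hf hh hV (i % q) h0 hmod.le _ hmem] at hcon
    exact hf.2.2.2.2 (i % q) h0 hmod _ (hV _ hmem) hcon.1

end Pool.Agent.SC
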