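import Pool.Agent.Lib.MP_1e8d1a_an.LC.B3
import Pool.Agent.Lib.MP_1e8d1a_an.LC.C1
import Pool.Agent.Lib.MP_1e8d1a_an.SC.RotC
import Pool.Agent.Lib.MP_1e8d1a_an.SC.BumpB

/-! row lc-C2 -/

open scoped ContDiff Manifold Topology

namespace Pool.Agent.SC

variable {E : Type} [NormedAddCommGroup E] [NormedSpace ℝ E] {H : Type} [TopologicalSpace H]
  {I : ModelWithCorners ℝ E H} {M : Type} [TopologicalSpace M] [ChartedSpace H M]
  {E' : Type} [NormedAddCommGroup E'] [NormedSpace ℝ E'] {H' : Type} [TopologicalSpace H']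
  {J : ModelWithCorners ℝ E' H'} {N : Type} [TopologicalSpace N] [ChartedSpace H' N]

/-- Smoothness of one map of a clock. -/
theorem C2_smooth_at {r : ℕ∞} {w : N} {V : Set N} {S : (ℝ × ℝ) × N → N} (hS : ManClock J w V S)
    (t : ℝ × ℝ) (ht : |t.2| < 1) : ContMDiff J J r (fun z => S (t, z)) := by
  intro z
  have h1 : ContMDiffAt (𝓘(ℝ, ℝ × ℝ).prod J) J r S ((fun z : N => (t, z)) z) :=
    (hS.smooth t z ht).of_le (by exact_mod_cast le_top)
  have h2 : ContMDiffAt J (𝓘(ℝ, ℝ × ℝ).prod J) r (fun z : N => (t, z)) z :=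
    contMDiffAt_const.prodMk contMDiffAt_id
  exact ContMDiffAt.comp (I' := 𝓘(ℝ, ℝ × ℝ).prod J) (f := fun z : N => (t, z)) z h1 h2

/-- PROOF.  The map `D z = S (t, z)` is a diffeomorphism of class `∞` of `N` with inverse
`z ↦ S (-t, z)` (`ManClock.inv` for `t` and `-t`); smoothness: `ManClock.smooth` composed with
`z ↦ (t, z)`.  `G = (f × g) ∘ (id × D)`: build the structure (`Diffeomorph.prodCongr` or by hand). -/
theorem exists_stage_diffeo [IsManifold J ∞ N] {r : ℕ∞} (f : M ≃ₘ^r⟮I, I⟯ M)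
    (g : N ≃ₘ^r⟮J, J⟯ N) {w : N} {V : Set N} {S : (ℝ × ℝ) × N → N} (hS : ManClock J w V S)
    (t : ℝ × ℝ) (ht : |t.2| < 1) :
    ∃ G : (M × N) ≃ₘ^r⟮I.prod J, I.prod J⟯ (M × N), ∀ y z, G (y, z) = (f y, g (S (t, z))) := by
  have ht' : |(-t).2| < 1 := by
    rw [Prod.snd_neg, abs_neg]
    exact ht
  let D : N ≃ₘ^r⟮J, J⟯ N :=
    { toFun := fun z => S (t, z)
      invFun := fun z => S (-t, z)
      left_inv := fun z => hS.inv t z ht
      right_inv := fun z => by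
        have h := hS.inv (-t) z ht'
        rw [neg_neg] at h
        exact h
      contMDiff_toFun := C2_smooth_at hS t ht
      contMDiff_invFun := C2_smooth_at hS (-t) ht' }
  exact ⟨f.prodCongr (D.trans g), fun y z => rfl⟩

/-- PROOF.  Composition of smooth maps: `(t, (y, z)) ↦ (f y, g (S (A t, z)))` at `(t₀, p)`, where
`|(A t₀).2| < 1`. -/
theorem stage_smooth [IsManifold J ∞ N] {r : ℕ∞} (f : M ≃ₘ^r⟮I, I⟯ M)
    (g : N ≃ₘ^r⟮J, J⟯ N) {w : N} {V : Set N} {S : (ℝ × ℝ) × N → N} (hS : ManClock J w V S)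
    {P : Type} [NormedAddCommGroup P] [NormedSpace ℝ P] (A : P → ℝ × ℝ) (hA : ContDiff ℝ ∞ A)
    (t₀ : P) (ht : |(A t₀).2| < 1) (p : M × N) :
    ContMDiffAt (𝓘(ℝ, P).prod (I.prod J)) (I.prod J) r
      (fun x : P × (M × N) => (f x.2.1, g (S (A x.1, x.2.2)))) (t₀, p) := by
  have h1 : ContMDiff (𝓘(ℝ, P).prod (I.prod J)) I r (fun x : P × (M × N) => x.2.1) :=
    contMDiff_fst.comp contMDiff_snd
  have h2 : ContMDiff (𝓘(ℝ, P).prod (I.prod J)) J r (fun x : P × (M × N) => x.2.2) :=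
    contMDiff_snd.comp contMDiff_snd
  have h3 : ContMDiff (𝓘(ℝ, P).prod (I.prod J)) 𝓘(ℝ, ℝ × ℝ) r
      (fun x : P × (M × N) => A x.1) :=
    ((hA.of_le (by exact_mod_cast le_top)).contMDiff (n := r)).comp contMDiff_fst
  have h4 : ContMDiffAt (𝓘(ℝ, P).prod (I.prod J)) (𝓘(ℝ, ℝ × ℝ).prod J) r
      (fun x : P × (M × N) => (A x.1, x.2.2)) (t₀, p) :=
    (h3.contMDiffAt).prodMk (h2.contMDiffAt)
  have h5 : ContMDiffAt (𝓘(ℝ, ℝ × ℝ).prod J) J r S
      ((fun x : P × (M × N) => (A x.1, x.2.2)) (t₀, p)) :=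
    (hS.smooth (A t₀) p.2 ht).of_le (by exact_mod_cast le_top)
  have h6 : ContMDiffAt (𝓘(ℝ, P).prod (I.prod J)) J r
      (fun x : P × (M × N) => S (A x.1, x.2.2)) (t₀, p) :=
    ContMDiffAt.comp (I' := 𝓘(ℝ, ℝ × ℝ).prod J)
      (f := fun x : P × (M × N) => (A x.1, x.2.2)) (t₀, p) h5 h4
  have h7 : ContMDiffAt (𝓘(ℝ, P).prod (I.prod J)) J r
      (fun x : P × (M × N) => g (S (A x.1, x.2.2))) (t₀, p) :=
    ContMDiffAt.comp (I' := J) (g := g)
      (f := fun x : P × (M × N) => S (A x.1, x.2.2)) (t₀, p) (g.contMDiff.contMDiffAt) h6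
  have h8 : ContMDiffAt (𝓘(ℝ, P).prod (I.prod J)) I r
      (fun x : P × (M × N) => f x.2.1) (t₀, p) :=
    ((f.contMDiff).comp h1).contMDiffAt
  exact h8.prodMk h7

end Pool.Agent.SC
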