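import Pool.Agent.Lib.MP_1e8d1a_an.LC.C2

/-! row lc-C3 -/

open scoped ContDiff Manifold Topology

namespace Pool.Agent.SC

variable {E : Type} [NormedAddCommGroup E] [NormedSpace ℝ E] [FiniteDimensional ℝ E]
  {H : Type} [TopologicalSpace H] {I : ModelWithCorners ℝ E H} [I.Boundaryless]
  {M : Type} [TopologicalSpace M] [T2Space M] [CompactSpace M] [ChartedSpace H M]
  [IsManifold I ∞ M]
  {E' : Type} [NormedAddCommGroup E'] [NormedSpace ℝ E'] [FiniteDimensional ℝ E']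
  {H' : Type} [TopologicalSpace H'] {J : ModelWithCorners ℝ E' H'} [J.Boundaryless]
  {N : Type} [TopologicalSpace N] [T2Space N] [CompactSpace N] [ChartedSpace H' N]
  [IsManifold J ∞ N]

/-- Stage 1: the parameter `(s, s)`.
PROOF.  `closable_of_family` (`SC/BumpA.lean`) with `P = ℝ × ℝ`,
`Φ (t, (y, z)) = (f y, g (S ((s, s) + t, z)))` (`stage_smooth`), `J = univ ×ˢ (V ∩ U₀)` (a
neighbourhood of `(x, w)`), `U₀` from `hS.clock s`.  Let `U ∈ 𝓝 (x, w)`, `A ×ˢ B ⊆ U`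
(`mem_nhds_prod_iff`), `ε > 0`.  `N₀` from the clock; `nw_large` (`SC/RotC.lean`) for the map
`f^[q]`, `x`, `N₀`, `A`: `m ≥ N₀`, `y ∈ A`, `(f^[q])^[m] y ∈ A`, `0 < m`.  `t` from the clock for
this `m`, `G` from `exists_stage_diffeo` for `t`; `G (·) = Φ (t - (s, s), ·)`.  With
`h z = S (t, z)`: `h` is the identity outside `V` and maps `V` to `V` (if `z ∈ V`, `h z ∉ V` then
`z = S (-t, h z) = h z`, contradiction).  `G^[n] (y, z) = (f^[n] y, (g ∘ h)^[n] z)`; with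
`n = q * m`: `(g ∘ h)^[q * m] w = h^[m] w = w` (`free_iterate`), `f^[q * m] = (f^[q])^[m]`
(`Function.iterate_mul`).  Intermediate times: `free_intermediate`. -/
theorem closable_free_stage {r : ℕ∞} (f : M ≃ₘ^r⟮I, I⟯ M) (x : M) (g : N ≃ₘ^r⟮J, J⟯ N) (w : N)
    (q : ℕ) (V : Set N) (hf : FreePeriodic g w q V) (hx : NonwanderingPt (f : M → M)^[q] x)
    (S : (ℝ × ℝ) × N → N) (hS : ManClock J w V S) (s : ℝ) (hs : 0 < s) (hs1 : s ≤ 1 / 2)
    (G₀ : (M × N) ≃ₘ^r⟮I.prod J, I.prod J⟯ (M × N))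
    (hG₀ : ∀ y z, G₀ (y, z) = (f y, g (S ((s, s), z)))) : Closable (I.prod J) G₀ (x, w) := by
  obtain ⟨U₀, hU₀, hclock⟩ := hS.clock s hs hs1
  have hq0 : 0 < q := hf.1
  have hVo : IsOpen V := hf.2.1
  have hwV : w ∈ V := hf.2.2.1
  refine closable_of_family (P := ℝ × ℝ)
    (fun a : (ℝ × ℝ) × (M × N) => (f a.2.1, g (S ((s, s) + a.1, a.2.2)))) ?_ G₀ ?_ (x, w)
    (Set.univ ×ˢ (V ∩ U₀)) ?_ ?_
  · intro p
    refine stage_smooth f g hS (fun t : ℝ × ℝ => (s, s) + t) (contDiff_const.add contDiff_id) 0 ?_ p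
    show |((s, s) + (0 : ℝ × ℝ)).2| < 1
    rw [add_zero]
    show |s| < 1
    rw [abs_of_pos hs]
    linarith
  · rintro ⟨a, b⟩
    show G₀ (a, b) = (f a, g (S ((s, s) + (0 : ℝ × ℝ), b)))
    rw [hG₀, add_zero]
  · exact prod_mem_nhds Filter.univ_mem (Filter.inter_mem (hVo.mem_nhds hwV) hU₀)
  · intro U hU ε hε
    obtain ⟨A, hA, B, hB, hAB⟩ := mem_nhds_prod_iff.1 hU
    obtain ⟨N₀, hN₀⟩ := hclock ε hε
    obtain ⟨m, hm, hm0, y, hy, hym⟩ :=
      nw_large (f := (f : M → M)^[q]) (f.continuous.iterate q) hx N₀ A hA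
    obtain ⟨t, ht, ht1, htm, hti⟩ := hN₀ m hm
    obtain ⟨G, hG⟩ := exists_stage_diffeo f g hS t ht1
    have hh : ∀ z, z ∉ V → S (t, z) = z := fun z hz => hS.supp t z hz
    have hV : ∀ z ∈ V, S (t, z) ∈ V := by
      intro z hz
      by_contra hcon
      have h1 := hS.supp (-t) (S (t, z)) hcon
      rw [hS.inv t z ht1] at h1
      exact hcon (h1 ▸ hz)
    have hit : ∀ (n : ℕ) (a : M) (b : N), (G : M × N → M × N)^[n] (a, b) =
        ((f : M → M)^[n] a, ((g : N → N) ∘ fun z => S (t, z))^[n] b) := by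
      intro n
      induction n with
      | zero => intro a b; rfl
      | succ n ih =>
        intro a b
        rw [Function.iterate_succ_apply, Function.iterate_succ_apply, Function.iterate_succ_apply, hG, ih]
        rfl
    refine ⟨t - (s, s), ht, G, ?_, (y, w), hAB ⟨hy, mem_of_mem_nhds hB⟩, q * m,
      Nat.mul_pos hq0 hm0, ?_, ?_⟩
    · rintro ⟨a, b⟩
      show G (a, b) = (f a, g (S ((s, s) + (t - (s, s)), b)))
      rw [hG, add_sub_cancel]
    · rw [hit, free_iterate hf hh hV m w hwV, htm, Function.iterate_mul]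
      exact hAB ⟨hym, mem_of_mem_nhds hB⟩
    · intro i hi0 hi
      rw [hit]
      intro hmem
      exact free_intermediate hf hh hV m hti i hi0 hi hmem.2

end Pool.Agent.SC
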