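import Pool.Agent.Lib.MP_1e8d1a_an.LC.C3

/-! row lc-C4 -/

open scoped ContDiff Manifold Topology

namespace Pool.Agent.SC

variable {E : Type} [NormedAddCommGroup E] [NormedSpace ℝ E] [FiniteDimensional ℝ E]
  {H : Type} [TopologicalSpace H] {I : ModelWithCorners ℝ E H} [I.Boundaryless]
  {M : Type} [TopologicalSpace M] [T2Space M] [CompactSpace M] [ChartedSpace H M]
  [IsManifold I ∞ M]
  {E' : Type} [NormedAddCommGroup E'] [NormedSpace ℝ E'] [FiniteDimensional ℝ E']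
  {H' : Type} [TopologicalSpace H'] {J : ModelWithCorners ℝ E' H'} [J.Boundaryless]
  {N : Type} [TopologicalSpace N] [T2Space N] [CompactSpace N] [ChartedSpace H' N]
  [IsManifold J ∞ N]

/-- Stage 2: `s → 0`.
PROOF.  `S` from `exists_manClock w V`.  `closable_of_limit` (`SC/BumpB.lean`) with `P = ℝ`,
`Φ (s, (y, z)) = (f y, g (S ((s, s), z)))` (`stage_smooth` at `s = 0`); `Φ (0, ·) = F` since
`S (0, z) = z`.  For `ε > 0`: `s = min (ε / 2) (1 / 2)`, `G` from `exists_stage_diffeo`,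
`closable_free_stage`. -/
theorem closable_free (hE : 2 ≤ Module.finrank ℝ E') {r : ℕ∞} (f : M ≃ₘ^r⟮I, I⟯ M) (x : M)
    (g : N ≃ₘ^r⟮J, J⟯ N) (w : N) (q : ℕ) (V : Set N) (hf : FreePeriodic g w q V)
    (hx : NonwanderingPt (f : M → M)^[q] x) (F : (M × N) ≃ₘ^r⟮I.prod J, I.prod J⟯ (M × N))
    (hF : ∀ p, F p = (f p.1, g p.2)) : Closable (I.prod J) F (x, w) := by
  obtain ⟨S, hS⟩ := exists_manClock (I := J) hE w V (hf.2.1.mem_nhds hf.2.2.1)
  refine closable_of_limit (P := ℝ)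
    (fun p : ℝ × (M × N) => (f p.2.1, g (S ((p.1, p.1), p.2.2)))) ?_ F ?_ (x, w) ?_
  · intro p
    exact stage_smooth f g hS (fun s : ℝ => (s, s)) (by fun_prop) 0 (by simp) p
  · rintro ⟨y, z⟩
    rw [hF]
    simp only
    have h0 : ((0 : ℝ), (0 : ℝ)) = 0 := rfl
    rw [h0, hS.zero]
  · intro ε hε
    have hs : 0 < min (ε / 2) (1 / 2) := lt_min (by linarith) (by norm_num)
    have hs1 : min (ε / 2) (1 / 2) ≤ 1 / 2 := min_le_right _ _
    have hs2 : min (ε / 2) (1 / 2) ≤ ε / 2 := min_le_left _ _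
    generalize min (ε / 2) (1 / 2) = s at hs hs1 hs2
    obtain ⟨G, hG⟩ := exists_stage_diffeo f g hS (s, s) (by
      show |s| < 1
      rw [abs_of_pos hs]
      linarith)
    refine ⟨s, ?_, G, fun p => hG p.1 p.2,
      closable_free_stage f x g w q V hf hx S hS s hs hs1 G hG⟩
    rw [Real.norm_eq_abs, abs_of_pos hs]
    linarith

end Pool.Agent.SC
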