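import Pool.Agent.Lib.MP_1e8d1a_an.LC.D1a

/-! row lc-D1 -/

open scoped ContDiff Manifold Topology

namespace Pool.Agent.SC

variable {E : Type} [NormedAddCommGroup E] [NormedSpace ℝ E] {H : Type} [TopologicalSpace H]
  {I : ModelWithCorners ℝ E H} {W : Type} [TopologicalSpace W] [ChartedSpace H W]

/-- Conjugation by a smooth diffeomorphism is continuous in the `C^r` topology.
PROOF.  `continuous_generateFrom_iff`: the preimage of the subbasic set of `(f, φ, ψ, K, ε, k)` is the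
subbasic set of `(D f D⁻¹, φ', ψ', D '' K, ε, k)`, `φ' = φ ∘ D⁻¹`, `ψ' = ψ ∘ D⁻¹`
(`chart_conj_mem`): for `p ∈ K`: `φ' (D p) = φ p`, and
`ψ' ∘ G ∘ φ'.symm = ψ ∘ (D⁻¹ G D) ∘ φ.symm` as functions
(`OpenPartialHomeomorph.extend` and `trans` unfold definitionally on functions). -/
theorem continuous_conj [IsManifold I ∞ W] {r : ℕ∞} (D : W ≃ₘ^∞⟮I, I⟯ W)
    (C : (W ≃ₘ^r⟮I, I⟯ W) → (W ≃ₘ^r⟮I, I⟯ W)) (hC : ∀ G p, C G p = D.symm (G (D p))) :
    @Continuous _ _ (crTopology I r) (crTopology I r) C := by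
  have hle : (r : WithTop ℕ∞) ≤ (∞ : WithTop ℕ∞) := by exact_mod_cast le_top
  let D' : W ≃ₘ^r⟮I, I⟯ W :=
    { toEquiv := D.toEquiv
      contMDiff_toFun := D.contMDiff.of_le hle
      contMDiff_invFun := D.symm.contMDiff.of_le hle }
  refine (@continuous_generateFrom_iff _ _ C (crTopology I r) _).2 ?_
  rintro s ⟨f, φ, ψ, K, ε, k, hk, hφ, hψ, hK, hKφ, hKψ, hε, rfl⟩
  apply TopologicalSpace.isOpen_generateFrom_of_mem
  refine ⟨(D'.symm.trans f).trans D', D.symm.toHomeomorph.toOpenPartialHomeomorph.trans φ,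
    D.symm.toHomeomorph.toOpenPartialHomeomorph.trans ψ, D '' K, ε, k, hk, chart_conj_mem D φ hφ,
    chart_conj_mem D ψ hψ, hK.image D.contMDiff.continuous, ?_, ?_, hε, ?_⟩
  · rintro _ ⟨p, hp, rfl⟩
    refine ⟨trivial, ?_⟩
    show D.symm (D p) ∈ φ.source
    rw [D.symm_apply_apply]
    exact hKφ hp
  · rintro _ ⟨_, ⟨p, hp, rfl⟩, rfl⟩
    refine ⟨trivial, ?_⟩
    show D.symm (D (f (D.symm (D p)))) ∈ ψ.source
    rw [D.symm_apply_apply, D.symm_apply_apply]
    exact hKψ ⟨p, hp, rfl⟩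
  · ext G
    have e1 : (D.symm.toHomeomorph.toOpenPartialHomeomorph.trans ψ).extend I ∘ G ∘
        ((D.symm.toHomeomorph.toOpenPartialHomeomorph.trans φ).extend I).symm =
        ψ.extend I ∘ (C G) ∘ (φ.extend I).symm := by
      funext x
      show I (ψ (D.symm (G (D (φ.symm (I.symm x)))))) = I (ψ (C G (φ.symm (I.symm x))))
      rw [hC]
    have e2 : (D.symm.toHomeomorph.toOpenPartialHomeomorph.trans ψ).extend I ∘
        ((D'.symm.trans f).trans D') ∘
        ((D.symm.toHomeomorph.toOpenPartialHomeomorph.trans φ).extend I).symm =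
        ψ.extend I ∘ f ∘ (φ.extend I).symm := by
      funext x
      show I (ψ (D.symm (D (f (D.symm (D (φ.symm (I.symm x)))))))) = I (ψ (f (φ.symm (I.symm x))))
      rw [D.symm_apply_apply, D.symm_apply_apply]
    have e3 : ∀ p, (D.symm.toHomeomorph.toOpenPartialHomeomorph.trans φ).extend I (D p) =
        φ.extend I p := by
      intro p
      show I (φ (D.symm (D p))) = I (φ p)
      rw [D.symm_apply_apply]
    show CrNear I k f φ ψ K ε (C G) ↔ CrNear I k _ _ _ (D '' K) ε G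
    unfold CrNear
    rw [e1, e2]
    constructor
    · rintro ⟨h1, h2⟩
      refine ⟨?_, ?_⟩
      · rintro _ ⟨_, ⟨p, hp, rfl⟩, rfl⟩
        refine ⟨trivial, ?_⟩
        show D.symm (G (D p)) ∈ ψ.source
        rw [← hC]
        exact h1 ⟨p, hp, rfl⟩
      · rintro _ ⟨p, hp, rfl⟩ j hj
        rw [e3]
        exact h2 p hp j hj
    · rintro ⟨h1, h2⟩
      refine ⟨?_, ?_⟩
      · rintro _ ⟨p, hp, rfl⟩
        rw [hC]
        exact (h1 ⟨D p, ⟨p, hp, rfl⟩, rfl⟩).2
      · intro p hp j hj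
        have := h2 (D p) ⟨p, hp, rfl⟩ j hj
        rw [e3] at this
        exact this

end Pool.Agent.SC
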