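import Pool.Agent.Lib.MP_1e8d1a_an.SC.Defs

/-! row lc-D1a -/

open scoped ContDiff Manifold Topology

namespace Pool.Agent.SC

variable {E : Type} [NormedAddCommGroup E] [NormedSpace ℝ E] {H : Type} [TopologicalSpace H]
  {I : ModelWithCorners ℝ E H} {W : Type} [TopologicalSpace W] [ChartedSpace H W]

/-- The chart `φ ∘ D⁻¹`, `D` a smooth diffeomorphism, is a smooth chart.
PROOF.  `D.symm` is smooth, `φ` is smooth on its source (`contMDiffOn_of_mem_maximalAtlas`), and
`φ.symm`, `D` are smooth (`contMDiffOn_symm_of_mem_maximalAtlas`); a partial homeomorphism that is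
smooth in both directions belongs to the maximal atlas
(`isLocalStructomorphOn_contDiffGroupoid_iff`, or directly: the transition maps with charts of the
atlas are in `contDiffGroupoid ∞ I`, `contDiffGroupoid` membership is smoothness of
`I ∘ e ∘ I.symm` on the image, `contMDiffOn_iff`). -/
theorem chart_conj_mem [IsManifold I ∞ W] (D : W ≃ₘ^∞⟮I, I⟯ W) (φ : OpenPartialHomeomorph W H)
    (hφ : φ ∈ IsManifold.maximalAtlas I ∞ W) :
    D.symm.toHomeomorph.toOpenPartialHomeomorph.trans φ ∈ IsManifold.maximalAtlas I ∞ W := by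
  have h1 : ContMDiffOn I I ∞ φ φ.source := contMDiffOn_of_mem_maximalAtlas hφ
  have h2 : ContMDiffOn I I ∞ φ.symm φ.target := contMDiffOn_symm_of_mem_maximalAtlas hφ
  have h3 : ContMDiff I I ∞ (D.symm : W → W) := D.symm.contMDiff
  have h4 : ContMDiff I I ∞ (D : W → W) := D.contMDiff
  refine OpenPartialHomeomorph.mem_maximalAtlas_of_contMDiffOn _ ?_ ?_
  · refine h1.comp h3.contMDiffOn ?_
    intro x hx
    exact hx.2
  · have h5 : ContMDiffOn I I ∞ (fun y => D (φ.symm y)) φ.target := h4.comp_contMDiffOn h2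
    refine (h5.mono ?_).congr ?_
    · intro x hx
      exact hx.1
    · intro x hx
      rfl

end Pool.Agent.SC
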