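import Pool.Agent.Lib.MP_1e8d1a_an.LC.D1
import Pool.Agent.Lib.MP_1e8d1a_an.SC.Fam3
import Pool.Agent.Lib.MP_1e8d1a_an.IR.Pair

/-! row lc-D2a -/

open scoped ContDiff Manifold Topology

namespace Pool.Agent.SC

variable {E : Type} [NormedAddCommGroup E] [NormedSpace ℝ E] {H : Type} [TopologicalSpace H]
  {I : ModelWithCorners ℝ E H} {W : Type} [TopologicalSpace W] [ChartedSpace H W]

/-- PROOF.  The map `C G = D⁻¹ G D` (`Diffeomorph.trans`, `D` weakened to class `r` as in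
`SC/BumpA.lean`) is continuous (`continuous_conj`).  For a neighbourhood `U` of `C F` take
`G ∈ C ⁻¹' U` with `G^[n] (D p) = D p`; `(C G)^[n] p = D⁻¹ (G^[n] (D p)) = p`.  `F' = C F` by
`Diffeomorph.ext`. -/
theorem closable_conj [IsManifold I ∞ W] {r : ℕ∞} (D : W ≃ₘ^∞⟮I, I⟯ W) (F F' : W ≃ₘ^r⟮I, I⟯ W)
    (hF' : ∀ q, F' q = D.symm (F (D q))) (p : W) (h : Closable I F (D p)) : Closable I F' p := by
  have hle : (r : WithTop ℕ∞) ≤ (∞ : WithTop ℕ∞) := by exact_mod_cast le_top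
  let Dr : W ≃ₘ^r⟮I, I⟯ W :=
    { toEquiv := D.toEquiv
      contMDiff_toFun := D.contMDiff.of_le hle
      contMDiff_invFun := D.symm.contMDiff.of_le hle }
  let C : (W ≃ₘ^r⟮I, I⟯ W) → (W ≃ₘ^r⟮I, I⟯ W) := fun G => (Dr.trans G).trans Dr.symm
  have hC : ∀ G p, C G p = D.symm (G (D p)) := fun G p => rfl
  have hcont := continuous_conj D C hC
  have hCF : C F = F' := Diffeomorph.ext (fun q => by rw [hC, hF'])
  intro U hU
  rw [← hCF] at hU
  have h1 : C ⁻¹' U ∈ @nhds _ (crTopology I r) F :=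
    (@Continuous.tendsto _ _ (crTopology I r) (crTopology I r) C hcont F) hU
  obtain ⟨G, hG, n, hn, hp⟩ := h _ h1
  refine ⟨C G, hG, n, hn, ?_⟩
  have key : ∀ m, (C G : W → W)^[m] p = D.symm ((G : W → W)^[m] (D p)) := by
    intro m
    induction m with
    | zero =>
      rw [Function.iterate_zero, Function.iterate_zero, id_eq, id_eq, D.symm_apply_apply]
    | succ m ih =>
      rw [Function.iterate_succ_apply', ih, hC, Function.iterate_succ_apply', D.apply_symm_apply]
  rw [key, hp, D.symm_apply_apply]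

end Pool.Agent.SC
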