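import Pool.Agent.Lib.MP_1e8d1a_an.SC.MobC
import Pool.Agent.Lib.MP_1e8d1a_an.SC.PhiB

/-! The damped Moebius map of the space `ℂ × Q`. -/

open scoped ContDiff Manifold Topology

namespace Pool.Agent.SC

/-- displacement in turns at the point `z` of the plane (used for `z ≠ 0`) -/
noncomputable def ctau (s b : ℝ) (z : ℂ) : ℝ :=
  (1 / Real.pi) * Real.arctan ((s + b * (z.re / ‖z‖)) / (1 + b * (z.im / ‖z‖)))

/-- the rotation by `u` turns -/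
noncomputable def crot (u : ℝ) (z : ℂ) : ℂ := Complex.exp ((2 * Real.pi * u : ℝ) * Complex.I) * z

/-- The damped Moebius map of `ℂ × Q`: on the circle `{(z, y)}`, `‖z‖` and `y` fixed, `χ = c`, it is
the rotation by `ctau (t.1 * c) (t.2 * c) z` turns. -/
noncomputable def dmob {Q : Type} (χ : ℂ × Q → ℝ) (t : ℝ × ℝ) (x : ℂ × Q) : ℂ × Q :=
  (crot (ctau (t.1 * χ x) (t.2 * χ x) x.1) x.1, x.2)

/-- a cut-off function: smooth, `0 ≤ χ ≤ 1`, invariant under rotations of `ℂ`, `0` near `z = 0`,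
`1` on the circle `‖z‖ = ρ`, `y = 0`, and `0` outside the ball of radius `2 ρ` -/
structure LCCut {Q : Type} [NormedAddCommGroup Q] [NormedSpace ℝ Q] (ρ : ℝ) (χ : ℂ × Q → ℝ) :
    Prop where
  pos : 0 < ρ
  smooth : ContDiff ℝ ∞ χ
  nonneg : ∀ x, 0 ≤ χ x
  le_one : ∀ x, χ x ≤ 1
  inv : ∀ (z z' : ℂ) (y : Q), ‖z‖ = ‖z'‖ → χ (z, y) = χ (z', y)
  zero : ∀ (z : ℂ) (y : Q), ‖z‖ ≤ ρ / 2 → χ (z, y) = 0
  one : ∀ z : ℂ, ‖z‖ = ρ → χ (z, 0) = 1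
  supp : ∀ x, 2 * ρ ≤ ‖x‖ → χ x = 0

/-- A model clock on the normed space `E`: `S` is a family of maps `S (t, ·)`, `t ∈ ℝ × ℝ`,
`|t.2| < 1`, smooth in all variables, `S (-t, ·)` inverse to `S (t, ·)`, `S (0, ·) = id`, and
for small `s > 0` there are parameters `t` near `(s, s)` for which `0` is periodic with any large
period `m` and the intermediate iterates do not return to a fixed neighbourhood of `0`. -/
structure ModelClock {E : Type} [NormedAddCommGroup E] [NormedSpace ℝ E] (δ : ℝ)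
    (S : (ℝ × ℝ) × E → E) : Prop where
  smooth : ∀ (t : ℝ × ℝ) (y : E), |t.2| < 1 → ContDiffAt ℝ ∞ S (t, y)
  inv : ∀ (t : ℝ × ℝ) (y : E), |t.2| < 1 → S (-t, S (t, y)) = y
  zero : ∀ y, S (0, y) = y
  supp : ∀ (t : ℝ × ℝ) (y : E), δ ≤ ‖y‖ → S (t, y) = y
  clock : ∀ s : ℝ, 0 < s → s ≤ 1 / 2 → ∃ J ∈ 𝓝 (0 : E), ∀ ε > 0, ∃ N : ℕ, ∀ m : ℕ, N ≤ m →
    ∃ t : ℝ × ℝ, ‖t - (s, s)‖ < ε ∧ |t.2| < 1 ∧ (fun y => S (t, y))^[m] 0 = 0 ∧
      ∀ i, 0 < i → i < m → (fun y => S (t, y))^[i] 0 ∉ J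

variable {E : Type} [NormedAddCommGroup E] [NormedSpace ℝ E] {H : Type} [TopologicalSpace H]
  {N : Type} [TopologicalSpace N] [ChartedSpace H N]

/-- A clock on the manifold `N` at the point `w`, with support in `V`. -/
structure ManClock (I : ModelWithCorners ℝ E H) (w : N) (V : Set N) (S : (ℝ × ℝ) × N → N) :
    Prop where
  smooth : ∀ (t : ℝ × ℝ) (q : N), |t.2| < 1 →
    ContMDiffAt (𝓘(ℝ, ℝ × ℝ).prod I) I ∞ S (t, q)
  inv : ∀ (t : ℝ × ℝ) (q : N), |t.2| < 1 → S (-t, S (t, q)) = q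
  zero : ∀ q, S (0, q) = q
  supp : ∀ (t : ℝ × ℝ) (q : N), q ∉ V → S (t, q) = q
  clock : ∀ s : ℝ, 0 < s → s ≤ 1 / 2 → ∃ U₀ ∈ 𝓝 w, ∀ ε > 0, ∃ N₀ : ℕ, ∀ m : ℕ, N₀ ≤ m →
    ∃ t : ℝ × ℝ, ‖t - (s, s)‖ < ε ∧ |t.2| < 1 ∧ (fun q => S (t, q))^[m] w = w ∧
      ∀ i, 0 < i → i < m → (fun q => S (t, q))^[i] w ∉ U₀

/-- `w` is a free point of period `q`: `V` is an open neighbourhood of `w`, `g^q = id` on `V`, and
`g^i V` is disjoint from `V` for `0 < i < q`. -/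
def FreePeriodic (g : N → N) (w : N) (q : ℕ) (V : Set N) : Prop :=
  0 < q ∧ IsOpen V ∧ w ∈ V ∧ (∀ z ∈ V, g^[q] z = z) ∧
    ∀ i, 0 < i → i < q → ∀ z ∈ V, g^[i] z ∉ V

end Pool.Agent.SC
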